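import Pool.Agent.Helper17.OD.GoalsZV

namespace Pool.Agent.Helper17.OD.PkCOD

open Set

theorem thm (hRNK : G_RNK) (hCVL : G_CVL) : G_COD := by
  intro k S hS X hX
  obtain ⟨hwf, ρ, b₀, hb₀, hρ, hρ2, -, -⟩ := hRNK k S S hS X hX.1 hX.2
  obtain ⟨-, hex, -, hmem, -⟩ := hCVL
  obtain ⟨d, hd, hXd⟩ := hS.bdd X hX.1
  refine ⟨hwf, hex _ hwf (fun b => ⟨d, fun a ha => (pr_mem.1 (hXd ha)).1⟩), ?_⟩
  have key : ∀ (z : Z) (b : T), Cvl (rel X) z b → z.rank ≤ ρ b := by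
    intro z
    induction z using ZFSet.mem_wf.induction with
    | h z ih =>
      intro b h
      rw [ZFSet.rank_le_iff]
      intro y hy
      obtain ⟨a, ha, hya⟩ := (hmem _ z b h y).1 hy
      exact (hρ2 b _).2 ⟨a, ha, ih y hy a hya⟩
  intro z b h
  exact (key z b h).trans_lt ((hρ b).trans hb₀)

end Pool.Agent.Helper17.OD.PkCOD
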