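import Pool.Agent.Helper17.OD.GoalsZV

namespace Pool.Agent.Helper17.OD.PkCVL

open Set

theorem uniq (r : T → T → Prop) : ∀ (z z' : Z) (b : T), Cvl r z b → Cvl r z' b → z = z' := by
  intro z
  induction z using ZFSet.mem_wf.induction with
  | h z ih =>
    intro z' b h h'
    rw [cvl_iff] at h h'
    ext y
    constructor
    · intro hy
      obtain ⟨a, ha, hya⟩ := h.1 y hy
      obtain ⟨y', hy', hya'⟩ := h'.2 a ha
      rw [ih y hy y' a hya hya']
      exact hy'
    · intro hy
      obtain ⟨a, ha, hya⟩ := h'.1 y hy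
      obtain ⟨y', hy', hya'⟩ := h.2 a ha
      rw [← ih y' hy' y a hya' hya]
      exact hy'

theorem small_D (d : O) : Small.{1} (D (Iio d) : Set T) := by
  have h0 : Small.{1} (Iio d : Set O) := inferInstance
  let f : Shrink.{1} (Iio d : Set O) → O := fun i => ((equivShrink _).symm i : Iio d).1
  have h1 : (D (Iio d) : Set T) ⊆ range (Tr.map f) := by
    intro t
    induction t with
    | nat n => intro _; exact ⟨.nat n, rfl⟩
    | ord a =>
      intro h
      refine ⟨.ord (equivShrink _ ⟨a, ord_mem.1 h⟩), ?_⟩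
      simp [Tr.map, f]
    | pr s t hs ht =>
      intro h
      obtain ⟨s', rfl⟩ := hs (pr_mem.1 h).1
      obtain ⟨t', rfl⟩ := ht (pr_mem.1 h).2
      exact ⟨.pr s' t', rfl⟩
  exact small_subset h1

theorem exi (r : T → T → Prop) (hr : WellFounded r)
    (hd : ∀ b, ∃ d : O, ∀ a, r a b → a ∈ D (Iio d)) : ∀ b, ∃ z, Cvl r z b := by
  intro b
  induction b using hr.induction with
  | h b ih =>
    choose! g hg using ih
    obtain ⟨d, hd⟩ := hd b
    have h1 : Small.{1} ({a | r a b} : Set T) := by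
      have := small_D d
      exact small_subset (s := D (Iio d)) (t := {a | r a b}) hd
    refine ⟨ZFSet.range (fun a : ({a | r a b} : Set T) => g a.1), ?_⟩
    rw [cvl_iff]
    constructor
    · intro y hy
      obtain ⟨⟨a, ha⟩, rfl⟩ := ZFSet.mem_range.1 hy
      exact ⟨a, ha, hg a ha⟩
    · intro a ha
      exact ⟨g a, ZFSet.mem_range.2 ⟨⟨a, ha⟩, rfl⟩, hg a ha⟩

theorem bis (r r' : T → T → Prop) (B : T → T → Prop) (hB : ∀ a b, B a b →
      (∀ a', r a' a → ∃ b', r' b' b ∧ B a' b') ∧ ∀ b', r' b' b → ∃ a', r a' a ∧ B a' b') :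
    ∀ (z : Z) (a b : T), B a b → Cvl r z a → Cvl r' z b := by
  intro z
  induction z using ZFSet.mem_wf.induction with
  | h z ih =>
    intro a b hab h
    rw [cvl_iff] at h ⊢
    constructor
    · intro y hy
      obtain ⟨a', ha', hya'⟩ := h.1 y hy
      obtain ⟨b', hb', hab'⟩ := (hB a b hab).1 a' ha'
      exact ⟨b', hb', ih y hy a' b' hab' hya'⟩
    · intro b' hb'
      obtain ⟨a', ha', hab'⟩ := (hB a b hab).2 b' hb'
      obtain ⟨y, hy, hya'⟩ := h.2 a' ha'
      exact ⟨y, hy, ih y hy a' b' hab' hya'⟩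

theorem thm : G_CVL := by
  refine ⟨uniq, exi, bis, ?_, ?_⟩
  · intro r z b h y
    have h' := (cvl_iff r z b).1 h
    constructor
    · exact h'.1 y
    · rintro ⟨a, ha, hya⟩
      obtain ⟨y', hy', hya'⟩ := h'.2 a ha
      rw [uniq r y y' a hya hya']
      exact hy'
  · intro r z b h a ha
    obtain ⟨y, -, hy⟩ := ((cvl_iff r z b).1 h).2 a ha
    exact ⟨y, hy⟩

end Pool.Agent.Helper17.OD.PkCVL
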