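import Pool.Agent.Helper17.OD.GoalsZV

namespace Pool.Agent.Helper17.OD.PkDFS

open Set

variable {k : O} {S : Set (Set T)}

/-- Definability without set parameters. -/
abbrev SZ (k : O) (S : Set (Set T)) (P : T → (ℕ → Set T) → Prop) : Prop :=
  SD k S ({∅} : Set (Set T)) P

theorem eqN {s t : T → T} (hs : ST k s) (ht : ST k t) : SZ k S (fun e _ => s e = t e) := by
  obtain ⟨c, e₀, he₀, hc⟩ := hs.pr ht
  refine ⟨.eq (.pr (.nat 0) c) (.pr (.nat 1) c), e₀, fun _ => ∅, he₀, fun _ => rfl,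
    fun e he σ hσ => ?_⟩
  simp [Sat, tval, hc, Tr.fst, Tr.snd]

theorem lltN {s t : T → T} (hs : ST k s) (ht : ST k t) :
    SZ k S (fun e _ => (s e).llt (t e)) := by
  obtain ⟨c, e₀, he₀, hc⟩ := hs.pr ht
  refine ⟨.llt (.pr (.nat 0) c) (.pr (.nat 1) c), e₀, fun _ => ∅, he₀, fun _ => rfl,
    fun e he σ hσ => ?_⟩
  simp [Sat, tval, hc, Tr.fst, Tr.snd]

theorem isOrdN {s : T → T} (hs : ST k s) : SZ k S (fun e _ => (s e).IsOrd) := by
  obtain ⟨c, e₀, he₀, hc⟩ := hs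
  refine ⟨.isOrd c, e₀, fun _ => ∅, he₀, fun _ => rfl, fun e he σ hσ => ?_⟩
  simp [Sat, hc]

theorem memN {s : T → T} (j : ℕ) (hs : ST k s) : SZ k S (fun e σ => s e ∈ σ j) := by
  obtain ⟨c, e₀, he₀, hc⟩ := hs
  refine ⟨.mem c (2 * j), e₀, fun _ => ∅, he₀, fun _ => rfl, fun e he σ hσ => ?_⟩
  simp only [Sat, hc, mix_even]

theorem satN (φ : SF) : SZ k S (fun e σ => Sat k S φ e σ) := by
  refine ⟨φ.sub (.pr (.nat 0) (.nat 0)) (fun i => 2 * i), .nat 0, fun _ => ∅, nat_mem _ _,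
    fun _ => rfl, fun e he σ hσ => ?_⟩
  rw [sat_sub]
  have h1 : tval (.pr (.nat 0) (.nat 0)) (Tr.pr e (.nat 0)) = e := rfl
  have h2 : (fun i => mix σ (fun _ => ∅) (2 * i)) = σ := by
    funext i
    exact mix_even _ _ _
  rw [h1, h2]

/-- Lemma B. -/
theorem substE {P : T → (ℕ → Set T) → Prop} (hem : ∅ ∈ S) (hP : SZ k S P) :
    SZ k S (fun e _ => P e (fun _ => ∅)) := by
  obtain ⟨φ, e₀, τ, h0, h1, h2⟩ := hP
  have hτ : τ = fun _ => ∅ := funext h1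
  subst hτ
  refine ⟨φ.sub (.nat 0) (fun _ => 1), e₀, fun _ => ∅, h0, fun _ => rfl, fun e he σ hσ => ?_⟩
  rw [sat_sub]
  refine Iff.trans ?_ (h2 e he (fun _ => ∅) (fun _ => hem))
  have h3 : (fun i : ℕ => mix σ (fun _ => (∅ : Set T)) 1) = mix (fun _ => ∅) (fun _ => ∅) := by
    funext i
    have h4 : mix σ (fun _ => (∅ : Set T)) 1 = ∅ := mix_odd σ _ 0
    rw [h4]
    simp [mix]
  rw [h3]
  rfl

theorem inD_iff (hS : SOM k S S) {d : O} (hd : d < k) (y : T) : y ∈ D (Iio d) ↔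
    ∃ B ∈ S, y ∈ B ∧ ∀ z ∈ D (Iio k), z ∈ B → ((¬ z.IsOrd ∧ ¬ z = .pr z.fst z.snd) ∨
      (z.IsOrd ∧ z.llt (.ord d)) ∨ (z = .pr z.fst z.snd ∧ z.fst ∈ B ∧ z.snd ∈ B)) := by
  constructor
  · intro hy
    have hB : D (Iio d) ∈ S := by
      have := SOM.sep (k := k) (S := S) (S' := S) (P := fun _ => True) SD.const hd
      convert this using 1
      ext x
      simp
    refine ⟨_, hB, hy, fun z _ hz => ?_⟩
    cases z with
    | nat n => exact Or.inl ⟨fun h => h, by simp⟩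
    | ord a => exact Or.inr (Or.inl ⟨trivial, ord_mem.1 hz⟩)
    | pr s t => exact Or.inr (Or.inr ⟨rfl, (pr_mem.1 hz).1, (pr_mem.1 hz).2⟩)
  · rintro ⟨B, hB, hyB, h⟩
    obtain ⟨d', hd', hBd⟩ := hS.bdd B hB
    have key : ∀ z : T, z ∈ B → z ∈ D (Iio d) := by
      intro z
      induction z with
      | nat n => intro _; exact nat_mem _ _
      | ord a =>
        intro hz
        rcases h _ (D_mono (Iio_subset_Iio hd'.le) (hBd hz)) hz with ⟨h1, -⟩ | ⟨-, h1⟩ | ⟨h1, -⟩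
        · exact absurd trivial h1
        · exact ord_mem.2 h1
        · exact absurd h1 (by simp)
      | pr s t hs ht =>
        intro hz
        rcases h _ (D_mono (Iio_subset_Iio hd'.le) (hBd hz)) hz with ⟨-, h1⟩ | ⟨h1, -⟩ | ⟨-, h1, h2⟩
        · exact absurd rfl h1
        · exact absurd h1 (fun h => h)
        · exact pr_mem.2 ⟨hs h1, ht h2⟩
    exact key y hyB

/-- Lemma A. -/
theorem substA (hS : SOM k S S) {P : T → (ℕ → Set T) → Prop} (hP : SZ k S P) {X : Set T}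
    (hX : X ∈ DfS k S) : SZ k S (fun e σ => P e (scons X σ)) := by
  obtain ⟨ψ, eX, d, heX, hd, hXd⟩ := hX
  have hXS : X ∈ S := by
    rw [hXd]
    exact hS.comp ψ eX heX (fun _ => ∅) (fun _ => hS.emp) d hd
  have h1 : SZ k S (fun e σ => ∃ X' ∈ S, (∀ y ∈ D (Iio k), (y ∈ X' ↔
      ((∃ B ∈ S, y ∈ B ∧ ∀ z ∈ D (Iio k), z ∈ B → ((¬ z.IsOrd ∧ ¬ z = .pr z.fst z.snd) ∨
      (z.IsOrd ∧ z.llt (.ord d)) ∨ (z = .pr z.fst z.snd ∧ z.fst ∈ B ∧ z.snd ∈ B))) ∧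
      Sat k S ψ (.pr y eX) (fun _ => ∅)))) ∧ P e (scons X' σ)) := by
    refine SD.exS (P := fun e X' σ => (∀ y ∈ D (Iio k), (y ∈ X' ↔
      ((∃ B ∈ S, y ∈ B ∧ ∀ z ∈ D (Iio k), z ∈ B → ((¬ z.IsOrd ∧ ¬ z = .pr z.fst z.snd) ∨
      (z.IsOrd ∧ z.llt (.ord d)) ∨ (z = .pr z.fst z.snd ∧ z.fst ∈ B ∧ z.snd ∈ B))) ∧
      Sat k S ψ (.pr y eX) (fun _ => ∅)))) ∧ P e (scons X' σ)) (SD.and ?_ ?_)
    · refine SD.allT (P := fun _ y σ => (y ∈ σ 0 ↔
        ((∃ B ∈ S, y ∈ B ∧ ∀ z ∈ D (Iio k), z ∈ B → ((¬ z.IsOrd ∧ ¬ z = .pr z.fst z.snd) ∨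
        (z.IsOrd ∧ z.llt (.ord d)) ∨ (z = .pr z.fst z.snd ∧ z.fst ∈ B ∧ z.snd ∈ B))) ∧
        Sat k S ψ (.pr y eX) (fun _ => ∅)))) (SD.iff (memN 0 (ST.fst ST.id)) (SD.and ?_ ?_))
      · refine SD.exS (P := fun p B _ => p.fst ∈ B ∧ ∀ z ∈ D (Iio k), z ∈ B →
          ((¬ z.IsOrd ∧ ¬ z = .pr z.fst z.snd) ∨
          (z.IsOrd ∧ z.llt (.ord d)) ∨ (z = .pr z.fst z.snd ∧ z.fst ∈ B ∧ z.snd ∈ B)))
          (SD.and (memN 0 (ST.fst ST.id)) ?_)
        refine SD.allT (P := fun _ z σ => z ∈ σ 0 →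
          ((¬ z.IsOrd ∧ ¬ z = .pr z.fst z.snd) ∨
          (z.IsOrd ∧ z.llt (.ord d)) ∨ (z = .pr z.fst z.snd ∧ z.fst ∈ σ 0 ∧ z.snd ∈ σ 0)))
          (SD.imp (memN 0 (ST.fst ST.id)) ?_)
        refine SD.or (SD.and (SD.not (isOrdN (ST.fst ST.id))) (SD.not (eqN (ST.fst ST.id)
          (ST.pr (ST.fst (ST.fst ST.id)) (ST.snd (ST.fst ST.id)))))) (SD.or (SD.and
          (isOrdN (ST.fst ST.id)) (lltN (ST.fst ST.id) (ST.ordc hd))) (SD.and (eqN (ST.fst ST.id)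
          (ST.pr (ST.fst (ST.fst ST.id)) (ST.snd (ST.fst ST.id)))) (SD.and
          (memN 0 (ST.fst (ST.fst ST.id))) (memN 0 (ST.snd (ST.fst ST.id))))))
      · exact SD.sub (t := fun p => Tr.pr p.fst eX) (substE hS.emp (satN ψ))
          (ST.pr (ST.fst ST.id) (ST.const heX))
    · refine hP.congr fun e he σ hσ => iff_of_eq (congrArg (P e) ?_)
      funext i
      cases i <;> rfl
  refine h1.congr fun e he σ hσ => ?_
  have hbd : ∀ X ∈ S, ∀ a ∈ X, a ∈ D (Iio k) := by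
    intro X hX a h
    obtain ⟨d, hd, hXd⟩ := hS.bdd X hX
    exact D_mono (Iio_subset_Iio hd.le) (hXd h)
  have hX' : ∀ y, y ∈ X ↔ y ∈ D (Iio d) ∧ Sat k S ψ (.pr y eX) (fun _ => ∅) := by
    intro y
    rw [hXd]
    rfl
  constructor
  · rintro ⟨X', hX'S, h2, h3⟩
    have : X' = X := by
      ext y
      constructor
      · intro hy
        rw [hX', inD_iff hS hd]
        exact (h2 y (hbd _ hX'S y hy)).1 hy
      · intro hy
        have hy' := (hX' y).1 hy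
        rw [inD_iff hS hd] at hy'
        exact (h2 y (hbd _ hXS y hy)).2 hy'
    rw [← this]
    exact h3
  · intro h3
    refine ⟨X, hXS, fun y _ => ?_, h3⟩
    rw [hX', inD_iff hS hd]

/-- The first `n` entries of `σ`, then `∅`. -/
def apn (n : ℕ) (σ : ℕ → Set T) : ℕ → Set T := fun i => if i < n then σ i else ∅

theorem substN (hS : SOM k S S) (n : ℕ) : ∀ (P : T → (ℕ → Set T) → Prop), SZ k S P →
    ∀ σ : ℕ → Set T, (∀ i, σ i ∈ DfS k S) → SZ k S (fun e _ => P e (apn n σ)) := by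
  induction n with
  | zero =>
    intro P hP σ _
    have h1 : apn 0 σ = fun _ => ∅ := by
      funext i
      simp [apn]
    rw [h1]
    exact substE hS.emp hP
  | succ n ih =>
    intro P hP σ hσ
    have h1 := ih _ (substA hS hP (hσ 0)) (fun i => σ (i + 1)) (fun i => hσ _)
    have h2 : apn (n + 1) σ = scons (σ 0) (apn n fun i => σ (i + 1)) := by
      funext i
      cases i with
      | zero => simp [apn, scons]
      | succ i => simp [apn, scons]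
    rw [h2]
    exact h1

theorem thm (hTRS : G_TRS) : G_DFS := by
  intro k S hS
  have h0k : (0 : O) < k := lt_of_le_of_lt zero_le hS.omg
  refine ⟨hS.lim, hS.omg, ?_, ?_, hS.bdd, hS.compS, ?_, hS.coll⟩
  · rintro X ⟨φ, e, d, he, hd, rfl⟩
    exact hS.comp φ e he (fun _ => ∅) (fun _ => hS.emp) d hd
  · refine ⟨.nand (.eq (.nat 0) (.nat 0)) (.eq (.nat 0) (.nat 0)), .nat 0, 0, nat_mem _ _, h0k, ?_⟩
    ext x
    simp [Sat]
  · intro φ e he σ hσ d hd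
    obtain ⟨n, hn⟩ := hTRS.2.1 φ
    obtain ⟨φ', e₀, τ, he₀, hτ, h⟩ := substN hS n _ (satN φ) σ hσ
    have hτ' : τ = fun _ => ∅ := funext hτ
    subst hτ'
    refine ⟨φ'.sub cl3 (fun i => i), .pr e e₀, d, pr_mem.2 ⟨he, he₀⟩, hd, ?_⟩
    ext x
    refine and_congr_right fun hx => ?_
    rw [sat_sub, tval_cl3, hn k S (.pr x e) σ (apn n σ) (fun i hi => by simp [apn, hi])]
    have h1 := h (.pr x e) (pr_mem.2 ⟨D_mono (Iio_subset_Iio hd.le) hx, he⟩) (fun _ => ∅)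
      (fun _ => hS.emp)
    have h2 : mix (fun _ => (∅ : Set T)) (fun _ => ∅) = fun _ => ∅ := by
      funext i
      simp [mix]
    rw [h2] at h1
    exact h1.symm

end Pool.Agent.Helper17.OD.PkDFS
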