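import Pool.Agent.Helper17.OD.GoalsWM

namespace Pool.Agent.Helper17.OD.PkENC

open Set

theorem enc_inj : ∀ s t : T, enc s = enc t → s = t := by
  intro s
  induction s with
  | nat n =>
    intro t h
    cases t with
    | nat m =>
      simp only [enc, ZFSet.pair_inj] at h
      rw [zn_inj.1 h.2]
    | ord a =>
      simp only [enc, ZFSet.pair_inj] at h
      exact absurd (zn_inj.1 h.1) (by decide)
    | pr x y =>
      simp only [enc, ZFSet.pair_inj] at h
      exact absurd (zn_inj.1 h.1) (by decide)
  | ord b =>
    intro t h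
    cases t with
    | nat m =>
      simp only [enc, ZFSet.pair_inj] at h
      exact absurd (zn_inj.1 h.1) (by decide)
    | ord a =>
      simp only [enc, ZFSet.pair_inj] at h
      rw [Ordinal.toZFSet_injective h.2]
    | pr x y =>
      simp only [enc, ZFSet.pair_inj] at h
      exact absurd (zn_inj.1 h.1) (by decide)
  | pr x y hx hy =>
    intro t h
    cases t with
    | nat m =>
      simp only [enc, ZFSet.pair_inj] at h
      exact absurd (zn_inj.1 h.1) (by decide)
    | ord a =>
      simp only [enc, ZFSet.pair_inj] at h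
      exact absurd (zn_inj.1 h.1) (by decide)
    | pr x' y' =>
      simp only [enc, ZFSet.pair_inj] at h
      rw [hx _ h.2.1, hy _ h.2.2]

theorem rank_zn (n : ℕ) : (zn n).rank = n := by simp [zn]

theorem lim_add_nat {l a : O} (hl : Order.IsSuccLimit l) (ha : a < l) (n : ℕ) : a + n < l := by
  induction n with
  | zero => simpa using ha
  | succ n ih =>
    have := hl.succ_lt ih
    rw [Order.succ_eq_add_one, add_assoc] at this
    exact_mod_cast this

theorem enc_rank (l : O) (hl : Order.IsSuccLimit l) : ∀ t ∈ D (Iio l), (enc t).rank < l := by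
  have h0 : (0 : O) < l := by
    rw [pos_iff_ne_zero]
    rintro rfl
    exact hl.1 (isMin_bot)
  have hn : ∀ n : ℕ, (n : O) < l := fun n => by simpa using lim_add_nat hl h0 n
  have h2 : ∀ a < l, a + 2 < l := fun a ha => by exact_mod_cast lim_add_nat hl ha 2
  intro t
  induction t with
  | nat n =>
    intro _
    rw [enc, pair_rank, rank_zn, rank_zn]
    exact h2 _ (max_lt (hn _) (hn _))
  | ord a =>
    intro h
    rw [enc, pair_rank, rank_zn, Ordinal.rank_toZFSet]
    exact h2 _ (max_lt (hn _) (ord_mem.1 h))
  | pr s t hs ht =>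
    intro h
    rw [enc, pair_rank, rank_zn, pair_rank]
    exact h2 _ (max_lt (hn _) (h2 _ (max_lt (hs (pr_mem.1 h).1) (ht (pr_mem.1 h).2))))

theorem leaf_rank : ∀ t : T, ∀ a ∈ t.leaves, a < (enc t).rank := by
  intro t
  induction t with
  | nat n => intro a ha; simp [Tr.leaves] at ha
  | ord b =>
    intro a ha
    simp only [Tr.leaves, mem_singleton_iff] at ha
    subst ha
    rw [enc, pair_rank, Ordinal.rank_toZFSet]
    calc a ≤ max (zn 1).rank a := le_max_right _ _
      _ < max (zn 1).rank a + 2 := by
        apply lt_add_of_pos_right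
        exact_mod_cast Nat.succ_pos 1
  | pr s t hs ht =>
    intro a ha
    rw [enc, pair_rank, pair_rank]
    have h1 : a < max (enc s).rank (enc t).rank := by
      rcases ha with ha | ha
      · exact lt_of_lt_of_le (hs a ha) (le_max_left _ _)
      · exact lt_of_lt_of_le (ht a ha) (le_max_right _ _)
    exact h1.trans_le ((le_self_add).trans ((le_max_right _ _).trans le_self_add))

theorem thm : G_ENC := by
  refine ⟨enc_inj, enc_rank, leaf_rank, ?_, ?_, ?_⟩
  · intro A X X' h h'
    ext t
    constructor
    · intro ht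
      obtain ⟨s, hs, he⟩ := (h' _).1 ((h _).2 ⟨t, ht, rfl⟩)
      rw [enc_inj _ _ he]; exact hs
    · intro ht
      obtain ⟨s, hs, he⟩ := (h _).1 ((h' _).2 ⟨t, ht, rfl⟩)
      rw [enc_inj _ _ he]; exact hs
  · intro A A' X h h'
    ext z
    rw [h z, h' z]
  · intro W κ hz hκ
    have hlim : Order.IsSuccLimit κ := by
      rw [Order.isSuccLimit_iff]
      refine ⟨?_, ?_⟩
      · intro h
        have h0 : (0 : O) < κ := (hκ 0).1 (by simpa using hz.emp)
        exact absurd h0 (not_lt.2 (h (zero_le)))
      · rw [Order.isSuccPrelimit_iff_succ_lt]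
        intro a ha
        rw [← hκ, Order.succ_eq_add_one, Ordinal.toZFSet_add_one]
        exact (DT.ins (W := W) (Q := W) (DT.par ((hκ a).2 ha)) (DT.par ((hκ a).2 ha))).1
          (fun _ => ∅) (fun _ => hz.emp)
    refine ⟨hlim, (hκ _).1 hz.om, ?_⟩
    intro t
    constructor
    · induction t with
      | nat n => intro _; exact nat_mem _ _
      | ord a =>
        intro h
        exact ord_mem.2 ((hκ a).1 (mem_of_pair h).2)
      | pr s t hs ht =>
        intro h
        have h1 := mem_of_pair (mem_of_pair h).2
        exact pr_mem.2 ⟨hs h1.1, ht h1.2⟩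
    · have hzn : ∀ n, zn n ∈ W := fun n => (DT.nat (W := W) (Q := W) n).1 (fun _ => ∅)
        (fun _ => hz.emp)
      induction t with
      | nat n => intro _; exact ZM.pair (hzn _) (hzn _)
      | ord a => intro h; exact ZM.pair (hzn _) ((hκ a).2 (ord_mem.1 h))
      | pr s t hs ht =>
        intro h
        exact ZM.pair (hzn _) (ZM.pair (hs (pr_mem.1 h).1) (ht (pr_mem.1 h).2))

end Pool.Agent.Helper17.OD.PkENC
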