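import Pool.Agent.Helper17.OD.GoalsZV

namespace Pool.Agent.Helper17.OD.PkEQM

open Set

theorem sd_eqv (k : O) (S S' : Set (Set T)) (hS : SOM k S S') :
    SD k S S' (fun e σ => Eqv S (rel (σ 0)) (rel (σ 1)) e.fst e.snd) := by
  have h1 : SD k S S' (fun e σ => ∃ B ∈ S, Tr.pr e.fst e.snd ∈ B ∧
      ∀ a ∈ D (Iio k), ∀ b ∈ D (Iio k), Tr.pr a b ∈ B →
      (∀ a' ∈ D (Iio k), Tr.pr a' a ∈ σ 0 → ∃ b' ∈ D (Iio k), Tr.pr b' b ∈ σ 1 ∧ Tr.pr a' b' ∈ B) ∧
      (∀ b' ∈ D (Iio k), Tr.pr b' b ∈ σ 1 → ∃ a' ∈ D (Iio k), Tr.pr a' a ∈ σ 0 ∧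
        Tr.pr a' b' ∈ B)) := by
    apply_rules (maxDepth := 1000) [SD.exT, SD.allT, SD.exS, SD.allS, SD.isOrd, SD.llt, SD.mem,
      SD.eq, SD.not, SD.and, SD.or, SD.iff, SD.imp, ST.id, ST.fst, ST.snd, ST.pr, ST.nat, ST.ordc,
      SV.var, SV.par]
  refine h1.congr fun e he σ hσ => exists_congr fun B => and_congr_right fun hB =>
    and_congr_right fun _ => ?_
  have hbd : ∀ X ∈ S, ∀ a b : T, Tr.pr a b ∈ X → a ∈ D (Iio k) ∧ b ∈ D (Iio k) := by
    intro X hX a b h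
    obtain ⟨d, hd, hXd⟩ := hS.bdd X hX
    exact pr_mem.1 (D_mono (Iio_subset_Iio hd.le) (hXd h))
  constructor
  · intro h a b hab
    obtain ⟨ha, hb⟩ := hbd B hB a b hab
    obtain ⟨h2, h3⟩ := h a ha b hb hab
    constructor
    · intro a' ha'
      obtain ⟨b', -, h4⟩ := h2 a' (hbd _ (hσ 0) _ _ ha').1 ha'
      exact ⟨b', h4⟩
    · intro b' hb'
      obtain ⟨a', -, h4⟩ := h3 b' (hbd _ (hσ 1) _ _ hb').1 hb'
      exact ⟨a', h4⟩
  · intro h a _ b _ hab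
    obtain ⟨h2, h3⟩ := h a b hab
    constructor
    · intro a' _ ha'
      obtain ⟨b', h4, h5⟩ := h2 a' ha'
      exact ⟨b', (hbd _ (hσ 1) _ _ h4).1, h4, h5⟩
    · intro b' _ hb'
      obtain ⟨a', h4, h5⟩ := h3 b' hb'
      exact ⟨a', (hbd _ (hσ 0) _ _ h4).1, h4, h5⟩

theorem sd_cd (k : O) (S S' : Set (Set T)) (hS : SOM k S S') :
    SD k S S' (fun _ σ => IsCd S (σ 0)) := by
  have h1 : SD k S S' (fun _ σ => ∀ Y ∈ S, (∃ y ∈ D (Iio k), y ∈ Y) →
      ∃ y ∈ D (Iio k), y ∈ Y ∧ ∀ z ∈ D (Iio k), z ∈ Y → ¬ Tr.pr z y ∈ σ 0) := by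
    apply_rules (maxDepth := 1000) [SD.exT, SD.allT, SD.exS, SD.allS, SD.isOrd, SD.llt, SD.mem,
      SD.eq, SD.not, SD.and, SD.or, SD.iff, SD.imp, ST.id, ST.fst, ST.snd, ST.pr, ST.nat, ST.ordc,
      SV.var, SV.par]
  refine h1.congr fun e he σ hσ => ?_
  have hbd : ∀ X ∈ S, ∀ a ∈ X, a ∈ D (Iio k) := by
    intro X hX a h
    obtain ⟨d, hd, hXd⟩ := hS.bdd X hX
    exact D_mono (Iio_subset_Iio hd.le) (hXd h)
  constructor
  · intro h
    refine ⟨hσ 0, fun Y hY ⟨y, hy⟩ => ?_⟩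
    obtain ⟨y, -, h2, h3⟩ := h Y hY ⟨y, hbd Y hY y hy, hy⟩
    exact ⟨y, h2, fun z hz => h3 z (hbd Y hY z hz) hz⟩
  · rintro ⟨-, h⟩ Y hY ⟨y, -, hy⟩
    obtain ⟨y, h2, h3⟩ := h Y hY ⟨y, hy⟩
    exact ⟨y, hbd Y hY y h2, h2, fun z _ hz => h3 z hz⟩

theorem thm (hREC : G_REC) (hCVL : G_CVL) (hCOD : G_COD) : G_EQM := by
  intro k S S' hS
  refine ⟨sd_eqv k S S' hS, sd_cd k S S' hS, ?_⟩
  intro X Y hX hY a ha b hb
  have hSS : SOM k S S := SOM.self (h := hS)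
  obtain ⟨huniq, -, hbis, hmem, -⟩ := hCVL
  obtain ⟨hwX, hvX, -⟩ := hCOD k S hSS X hX
  obtain ⟨hwY, hvY, -⟩ := hCOD k S hSS Y hY
  have hbd : ∀ X ∈ S, ∀ a b : T, Tr.pr a b ∈ X → a ∈ D (Iio k) ∧ b ∈ D (Iio k) := by
    intro X hX a b h
    obtain ⟨d, hd, hXd⟩ := hS.bdd X hX
    exact pr_mem.1 (D_mono (Iio_subset_Iio hd.le) (hXd h))
  constructor
  · rintro ⟨B, hB, hab, hbi⟩
    obtain ⟨z, hz⟩ := hvX a
    exact ⟨z, hz, hbis _ _ (fun a b => Tr.pr a b ∈ B) hbi z a b hab hz⟩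
  · intro hz
    obtain ⟨d₁, hd₁, hXd⟩ := hS.bdd X hX.1
    obtain ⟨d₂, hd₂, hYd⟩ := hS.bdd Y hY.1
    let same : T → T → Prop := fun a b => ∃ z, Cvl (rel X) z a ∧ Cvl (rel Y) z b
    have hsame : ∀ a b : T, same a b ↔
        (∀ a', Tr.pr a' a ∈ X → ∃ b', Tr.pr b' b ∈ Y ∧ same a' b') ∧
        (∀ b', Tr.pr b' b ∈ Y → ∃ a', Tr.pr a' a ∈ X ∧ same a' b') := by
      intro a b
      constructor
      · rintro ⟨z, hza, hzb⟩
        have h1 := (cvl_iff _ _ _).1 hza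
        have h2 := (cvl_iff _ _ _).1 hzb
        constructor
        · intro a' ha'
          obtain ⟨y, hy, hya⟩ := h1.2 a' ha'
          obtain ⟨b', hb', hyb⟩ := h2.1 y hy
          exact ⟨b', hb', y, hya, hyb⟩
        · intro b' hb'
          obtain ⟨y, hy, hyb⟩ := h2.2 b' hb'
          obtain ⟨a', ha', hya⟩ := h1.1 y hy
          exact ⟨a', ha', y, hya, hyb⟩
      · rintro ⟨h1, h2⟩
        obtain ⟨z, hz⟩ := hvX a
        obtain ⟨z', hz'⟩ := hvY b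
        have : z = z' := by
          ext y
          rw [hmem _ _ _ hz y, hmem _ _ _ hz' y]
          constructor
          · rintro ⟨a', ha', hya⟩
            obtain ⟨b', hb', u, hua, hub⟩ := h1 a' ha'
            rw [huniq _ _ _ _ hya hua]
            exact ⟨b', hb', hub⟩
          · rintro ⟨b', hb', hyb⟩
            obtain ⟨a', ha', u, hua, hub⟩ := h2 b' hb'
            rw [huniq _ _ _ _ hyb hub]
            exact ⟨a', ha', hua⟩
        exact ⟨z, hz, this ▸ hz'⟩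
    have hrec := hREC k S S hSS
      (fun x => {p | p = .pr p.fst p.snd ∧ x = .pr x.fst x.snd ∧ Tr.pr p.fst x.fst ∈ X ∧
        Tr.pr p.snd x.snd ∈ Y})
      (fun x => {y | y = .nat 0 ∧ x = .pr x.fst x.snd ∧ same x.fst x.snd})
      (fun x y G => y = .nat 0 ∧ x = .pr x.fst x.snd ∧
        (∀ a' ∈ D (Iio k), Tr.pr a' x.fst ∈ X → ∃ b' ∈ D (Iio k), Tr.pr b' x.snd ∈ Y ∧
          Tr.pr (.pr a' b') (.nat 0) ∈ G) ∧
        (∀ b' ∈ D (Iio k), Tr.pr b' x.snd ∈ Y → ∃ a' ∈ D (Iio k), Tr.pr a' x.fst ∈ X ∧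
          Tr.pr (.pr a' b') (.nat 0) ∈ G))
      (by
        have hXS := hX.1
        have hYS := hY.1
        change SD k S S (fun e _ => e.fst = .pr e.fst.fst e.fst.snd ∧
          e.snd = .pr e.snd.fst e.snd.snd ∧ Tr.pr e.fst.fst e.snd.fst ∈ X ∧
          Tr.pr e.fst.snd e.snd.snd ∈ Y)
        apply_rules (maxDepth := 1000) [SD.mem, SD.eq, SD.and, ST.id, ST.fst, ST.snd, ST.pr, SV.par])
      (by
        have hXS := hX.1
        have hYS := hY.1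
        apply_rules (maxDepth := 1000) [SD.exT, SD.allT, SD.exS, SD.allS, SD.isOrd, SD.llt, SD.mem,
          SD.eq, SD.not, SD.and, SD.or, SD.iff, SD.imp, ST.id, ST.fst, ST.snd, ST.pr, ST.nat,
          ST.ordc, SV.var, SV.par])
      (by
        refine Subrelation.wf (r := InvImage (rel X) Tr.fst) ?_ (InvImage.wf _ hwX)
        intro p x hp
        exact hp.2.2.1)
      ⟨max d₁ d₂, max_lt hd₁ hd₂, fun d _ hdd x _ p hp => by
        rw [hp.1]
        exact pr_mem.2 ⟨D_mono (Iio_subset_Iio ((le_max_left _ _).trans hdd)) (pr_mem.1 (hXd hp.2.2.1)).1,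
          D_mono (Iio_subset_Iio ((le_max_right _ _).trans hdd)) (pr_mem.1 (hYd hp.2.2.2)).1⟩⟩
      (by
        intro x hx y
        constructor
        · rintro ⟨h1, h2, h3⟩
          obtain ⟨h4, h5⟩ := (hsame _ _).1 h3
          refine ⟨h1 ▸ nat_mem _ _, h1, h2, ?_, ?_⟩
          · intro a' ha' h6
            obtain ⟨b', h7, h8⟩ := h4 a' h6
            exact ⟨b', (hbd _ hY.1 _ _ h7).1, h7, _, _, rfl, ⟨rfl, h2, h6, h7⟩, rfl, rfl, h8⟩
          · intro b' hb' h6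
            obtain ⟨a', h7, h8⟩ := h5 b' h6
            exact ⟨a', (hbd _ hX.1 _ _ h7).1, h7, _, _, rfl, ⟨rfl, h2, h7, h6⟩, rfl, rfl, h8⟩
        · rintro ⟨-, h1, h2, h3, h4⟩
          refine ⟨h1, h2, (hsame _ _).2 ⟨?_, ?_⟩⟩
          · intro a' ha'
            obtain ⟨b', -, h5, x', y', h6, -, -, -, h7⟩ := h3 a' (hbd _ hX.1 _ _ ha').1 ha'
            injection h6 with h8 h9
            subst h8
            exact ⟨b', h5, h7⟩
          · intro b' hb'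
            obtain ⟨a', -, h5, x', y', h6, -, -, -, h7⟩ := h4 b' (hbd _ hY.1 _ _ hb').1 hb'
            injection h6 with h8 h9
            subst h8
            exact ⟨a', h5, h7⟩)
      (fun d hd => ⟨0, lt_of_le_of_lt zero_le hd, fun x _ y hy => by
        rw [hy.1]; exact nat_mem _ _⟩)
    -- the largest bisimulation
    obtain ⟨c₁, hc₁, ha₁⟩ : ∃ c < k, a ∈ D (Iio c) ∧ b ∈ D (Iio c) := by
      have hex : ∀ t : T, t ∈ D (Iio k) → ∃ c < k, t ∈ D (Iio c) := by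
        intro t
        induction t with
        | nat n => intro _; exact ⟨0, lt_of_le_of_lt zero_le hd₁, nat_mem _ _⟩
        | ord x => intro h; exact ⟨Order.succ x, hS.lim.succ_lt (ord_mem.1 h),
            ord_mem.2 (Order.lt_succ x)⟩
        | pr s t hs ht =>
          intro h
          obtain ⟨c, hc, h1⟩ := hs (pr_mem.1 h).1
          obtain ⟨c', hc', h2⟩ := ht (pr_mem.1 h).2
          exact ⟨max c c', max_lt hc hc', pr_mem.2 ⟨D_mono (Iio_subset_Iio (le_max_left _ _)) h1,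
            D_mono (Iio_subset_Iio (le_max_right _ _)) h2⟩⟩
      obtain ⟨c, hc, h1⟩ := hex a ha
      obtain ⟨c', hc', h2⟩ := hex b hb
      exact ⟨max c c', max_lt hc hc', D_mono (Iio_subset_Iio (le_max_left _ _)) h1,
            D_mono (Iio_subset_Iio (le_max_right _ _)) h2⟩
    have hsd : SD k S S (fun e _ => (Tr.nat 0 : T) = .nat 0 ∧ e = .pr e.fst e.snd ∧
        same e.fst e.snd) :=
      hrec.1.sub (t := fun e => .pr e (.nat 0)) (ST.pr ST.id (ST.nat 0))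
    have hdd : max c₁ (max d₁ d₂) < k := max_lt hc₁ (max_lt hd₁ hd₂)
    refine ⟨_, SOM.sep (h := hSS) hsd hdd, ⟨?_, rfl, rfl, hz⟩, ?_⟩
    · exact pr_mem.2 ⟨D_mono (Iio_subset_Iio (le_max_left _ _)) ha₁.1,
        D_mono (Iio_subset_Iio (le_max_left _ _)) ha₁.2⟩
    · rintro a b ⟨hab, -, -, hs⟩
      obtain ⟨h1, h2⟩ := (hsame _ _).1 hs
      constructor
      · intro a' ha'
        obtain ⟨b', hb', hs'⟩ := h1 a' ha'
        exact ⟨b', hb', pr_mem.2 ⟨D_mono (Iio_subset_Iio ((le_max_left _ _).trans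
          (le_max_right _ _))) (pr_mem.1 (hXd ha')).1,
          D_mono (Iio_subset_Iio ((le_max_right _ _).trans (le_max_right _ _)))
            (pr_mem.1 (hYd hb')).1⟩, rfl, rfl, hs'⟩
      · intro b' hb'
        obtain ⟨a', ha', hs'⟩ := h2 b' hb'
        exact ⟨a', ha', pr_mem.2 ⟨D_mono (Iio_subset_Iio ((le_max_left _ _).trans
          (le_max_right _ _))) (pr_mem.1 (hXd ha')).1,
          D_mono (Iio_subset_Iio ((le_max_right _ _).trans (le_max_right _ _)))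
            (pr_mem.1 (hYd hb')).1⟩, rfl, rfl, hs'⟩

end Pool.Agent.Helper17.OD.PkEQM
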