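import Pool.Agent.Helper17.OD.GoalsZV

namespace Pool.Agent.Helper17.OD.PkFAM

open Set

/-- The disjoint union of the codes `F i`, `i ∈ I`. -/
def un (F I : Set T) : Set T :=
  {p | p = .pr (.pr p.fst.fst p.fst.snd) (.pr p.fst.fst p.snd.snd) ∧ p.fst.fst ∈ I ∧
    Tr.pr p.fst.fst (.pr p.fst.snd p.snd.snd) ∈ F}

theorem un1 {F I : Set T} {z i x : T} : Tr.pr z (.pr i x) ∈ un F I ↔
    ∃ y, z = .pr i y ∧ i ∈ I ∧ Tr.pr i (.pr y x) ∈ F := by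
  constructor
  · rintro ⟨h1, h2, h3⟩
    injection h1 with h4 h5
    injection h5 with h6 h7
    have h8 : i = z.fst := h6
    refine ⟨z.snd, ?_, ?_, ?_⟩
    · rw [h8]; exact h4
    · rw [h8]; exact h2
    · rw [h8]; exact h3
  · rintro ⟨y, rfl, h1, h2⟩
    exact ⟨rfl, h1, h2⟩

theorem un_pr {F I : Set T} {z w : T} (h : Tr.pr z w ∈ un F I) : ∃ x, w = .pr w.fst x ∧ w.fst ∈ I := by
  obtain ⟨h1, h2, h3⟩ := h
  injection h1 with h4 h5
  have h6 : w = .pr z.fst w.snd := h5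
  have h7 : w.fst = z.fst := by
    have := congrArg Tr.fst h6
    exact this
  refine ⟨w.snd, ?_, ?_⟩
  · rw [h7]; exact h6
  · rw [h7]; exact h2

theorem thm (hCVL : G_CVL) (hSBC : G_SBC) : G_FAM := by
  intro k S hS F hF I hI hcd
  obtain ⟨d, hd, hFd⟩ := hS.bdd F hF
  have hX : un F I ∈ S := by
    refine SOM.of_SD (S := S) (k := k) hd ?_ ?_
    · rintro p ⟨h1, h2, h3⟩
      rw [h1]
      have h4 := pr_mem.1 (hFd h3)
      have h5 := pr_mem.1 h4.2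
      exact pr_mem.2 ⟨pr_mem.2 ⟨h4.1, h5.1⟩, pr_mem.2 ⟨h4.1, h5.2⟩⟩
    · change SD k S S (fun p _ => p = .pr (.pr p.fst.fst p.fst.snd) (.pr p.fst.fst p.snd.snd) ∧
        p.fst.fst ∈ I ∧ Tr.pr p.fst.fst (.pr p.fst.snd p.snd.snd) ∈ F)
      apply_rules (maxDepth := 1000) [SD.mem, SD.eq, SD.and, ST.id, ST.fst, ST.snd, ST.pr, SV.par]
  have hXc : IsCd S (un F I) := by
    refine ⟨hX, fun W hW hne => ?_⟩
    obtain ⟨d', hd', hWd⟩ := hS.bdd W hW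
    by_cases h1 : ∃ i x, i ∈ I ∧ Tr.pr i x ∈ W
    · obtain ⟨i, x, hi, hx⟩ := h1
      have hik : i ∈ D (Iio k) := D_mono (Iio_subset_Iio hd'.le) (pr_mem.1 (hWd hx)).1
      have hWi : {x | Tr.pr i x ∈ W} ∈ S := by
        refine SOM.of_SD (S := S) (k := k) hd' (fun x hx => (pr_mem.1 (hWd hx)).2) ?_
        have hbc : ST k (fun _ : T => i) := ST.const hik
        change SD k S S (fun x _ => Tr.pr i x ∈ W)
        exact SD.mem (ST.pr hbc ST.id) (SV.par hW)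
      obtain ⟨y, hy, hmin⟩ := (hcd i hi).2 _ hWi ⟨x, hx⟩
      refine ⟨.pr i y, hy, fun z hz hc => ?_⟩
      obtain ⟨u, rfl, -, hu⟩ := un1.1 hc
      exact hmin u hz hu
    · obtain ⟨w, hw⟩ := hne
      refine ⟨w, hw, fun z hz hc => h1 ?_⟩
      obtain ⟨x, h2, h3⟩ := un_pr hc
      exact ⟨w.fst, x, h3, h2 ▸ hw⟩
  have hval : ∀ i ∈ I, ∀ z x, Cvl (rel (un F I)) z (.pr i x) ↔
      Cvl (rel {p | Tr.pr i p ∈ F}) z x := by
    intro i hi z x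
    obtain ⟨-, -, hbis, -, -⟩ := hCVL
    constructor
    · refine hbis _ _ (fun a b => a = .pr i b) ?_ z (.pr i x) x rfl
      rintro _ b rfl
      constructor
      · intro a' ha'
        obtain ⟨y, rfl, -, hy⟩ := un1.1 ha'
        exact ⟨y, hy, rfl⟩
      · intro b' hb'
        exact ⟨.pr i b', un1.2 ⟨b', rfl, hi, hb'⟩, rfl⟩
    · refine hbis _ _ (fun a b => b = .pr i a) ?_ z x (.pr i x) rfl
      rintro a _ rfl
      constructor
      · intro a' ha'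
        exact ⟨.pr i a', un1.2 ⟨a', rfl, hi, ha'⟩, rfl⟩
      · intro b' hb'
        obtain ⟨y, rfl, -, hy⟩ := un1.1 hb'
        exact ⟨y, hy, rfl⟩
  have hY : {p : T | p.snd = .nat 0 ∧ p = .pr p.fst p.snd ∧ p.fst ∈ I} ∈ S := by
    obtain ⟨d', hd', hId⟩ := hS.bdd I hI
    refine SOM.of_SD (S := S) (k := k) hd' ?_ ?_
    · rintro p ⟨h1, h2, h3⟩
      rw [h2, h1]
      exact pr_mem.2 ⟨hId h3, nat_mem _ _⟩
    · change SD k S S (fun p _ => p.snd = .nat 0 ∧ p = .pr p.fst p.snd ∧ p.fst ∈ I)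
      apply_rules (maxDepth := 1000) [SD.mem, SD.eq, SD.and, ST.id, ST.fst, ST.snd, ST.pr, ST.nat,
        SV.par]
  obtain ⟨z, hz, hy⟩ := (hSBC k S S hS).1 _ hXc _ hY
  refine ⟨z, hz, fun y => ?_⟩
  rw [hy]
  constructor
  · rintro ⟨b, ⟨h1, h2, h3⟩, hb⟩
    rw [h2, h1] at hb
    exact ⟨b.fst, h3, (hval _ h3 y _).1 hb⟩
  · rintro ⟨i, hi, hb⟩
    exact ⟨.pr i (.nat 0), ⟨rfl, rfl, hi⟩, (hval i hi y _).2 hb⟩

end Pool.Agent.Helper17.OD.PkFAM
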