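import Pool.Agent.Helper17.OD.GoalsWM

namespace Pool.Agent.Helper17.OD.PkFB2

open Set

theorem thm (hENC : G_ENC) (hWLV : G_WLV) (hWCS : G_WCS) (hODC : G_ODC) (hPAR : G_PAR) :
    G_FB2 := by
  intro W κ α hz hκ hα hακ hall
  obtain ⟨hinj, -, -, -, -, hE⟩ := hENC
  obtain ⟨-, -, hencW⟩ := hE W κ hz hκ
  obtain ⟨-, hC2, hC3, -, -⟩ := hWCS W κ hz hκ
  obtain ⟨hO1, hO2, hO3, hO4, hPS, hPSo⟩ := hODC W ∅ hz
  have hαW : α.toZFSet ∈ W := (hκ α).2 hακ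
  obtain ⟨B, hB, hBm⟩ := (hWLV W W hz inferInstance).1 α hαW
  obtain ⟨P, hP, hPm⟩ := hz.power B hB
  have hordOr : ∀ a : O, a < κ → a.toZFSet ∈ OrX W ∅ := fun a ha =>
    ⟨(hκ a).2 ha, Or.inl (ZFSet.isOrdinal_toZFSet a)⟩
  have hordOD : ∀ a : O, a < κ → a.toZFSet ∈ {x | ODF W ∅ x} := fun a ha => hO3 _ (hordOr a ha)
  have hBOD : B ∈ {x | ODF W ∅ x} := by
    have h1 := (hWLV W {x | ODF W ∅ x} hz hPS).2
    have h2 := DP.fixPar (A := fun _ => α.toZFSet) h1 (fun _ => hordOD α hακ)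
    refine hO2 (fun y => ∃ a : O, α.toZFSet = a.toZFSet ∧ ∀ x, x ∈ y ↔ x ∈ Lev W a) h2 B hB ?_
    intro y hy
    constructor
    · rintro ⟨a, ha, hya⟩
      have : α = a := Ordinal.toZFSet_injective ha
      subst this
      ext x
      rw [hya, hBm]
    · rintro rfl
      exact ⟨α, rfl, hBm⟩
  refine ⟨P, hP, ?_⟩
  rintro X ⟨⟨ρ, hρ, hXρ⟩, A, hA, hAX⟩ hXo
  have hρW : ρ.toZFSet ∈ W := (hκ ρ).2 hρ
  -- the set of ordinals
  obtain ⟨x, hx, hxm⟩ := hz.sep (fun z => ZFSet.pair (zn 1) z ∈ A) (by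
    exact DP.mem (DT.pair (DT.nat 1) (DT.var 0)) (DT.par hA)) _ hρW
  have hxm' : ∀ ξ : O, ξ.toZFSet ∈ x ↔ Tr.ord ξ ∈ X := by
    intro ξ
    rw [hxm]
    constructor
    · rintro ⟨-, h⟩
      obtain ⟨t, ht, he⟩ := (hAX _).1 h
      have : t = .ord ξ := (hinj _ _ (by rw [← he]; rfl))
      rw [← this]; exact ht
    · intro h
      exact ⟨Ordinal.toZFSet_mem_toZFSet_iff.2 (ord_mem.1 (hXρ h)), (hAX _).2 ⟨_, h, rfl⟩⟩
  have hxo : ∀ z ∈ x, ∃ ξ : O, ξ < ρ ∧ z = ξ.toZFSet := by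
    intro z hz'
    obtain ⟨ξ, hξ, rfl⟩ := Ordinal.mem_toZFSet_iff.1 ((hxm z).1 hz').1
    exact ⟨ξ, hξ, rfl⟩
  obtain ⟨R, b, hb, hR, hRb⟩ := hPAR W α hz hα x (hall x hx)
  have hbB : b ∈ B := (hBm b).2 hb
  let E : Z → Z → Prop := fun z b' => ∃ y ∈ W, R b' y ∧ z ∈ y
  have hEdp : ∀ Q : Set Z, OrX W ∅ ⊆ Q → PS W Q → DP W Q (fun v => E (v 0) (v 1)) := by
    intro Q hQ hQ'
    have hR' : DP W Q (fun v => R (v 0) (v 1)) := hR.mono hQ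
    refine DP.ex (P := fun y v => R (v 1) y ∧ v 0 ∈ y) (DP.and ?_ ?_)
    · exact DP.app2 hR' (DT.var 2) (DT.var 0)
    · exact DP.mem (DT.var 1) (DT.var 0)
  let Eqc : Z → Z → Prop := fun z z' => ∀ b' ∈ B, (E z b' ↔ E z' b')
  have hEqdp : ∀ Q : Set Z, OrX W ∅ ⊆ Q → PS W Q → B ∈ Q →
      DP W Q (fun v => Eqc (v 0) (v 1)) := by
    intro Q hQ hQ' hBQ
    have hE' := hEdp Q hQ hQ'
    refine DP.ball (P := fun b' v => (E (v 0) b' ↔ E (v 1) b')) (DT.par hBQ) (DP.iff ?_ ?_)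
    · exact DP.app2 hE' (DT.var 1) (DT.var 0)
    · exact DP.app2 hE' (DT.var 2) (DT.var 0)
  have hOW : OrX W ∅ ⊆ W := fun x hx => hx.1
  have hOOD : OrX W ∅ ⊆ {x | ODF W ∅ x} := fun x hx => hO3 x hx
  have hEqW := hEqdp W hOW inferInstance hB
  have hEqO := hEqdp _ hOOD hPS hBOD
  have hxE : ∀ z, E z b ↔ z ∈ x := by
    intro z
    constructor
    · rintro ⟨y, hy, h1, h2⟩
      rw [(hRb y hy).1 h1] at h2
      exact h2
    · intro h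
      exact ⟨x, hx, (hRb x hx).2 rfl, h⟩
  have hEqx : ∀ z z', Eqc z z' → (z ∈ x ↔ z' ∈ x) := by
    intro z z' h
    rw [← hxE, ← hxE]
    exact h b hbB
  -- minimal elements
  obtain ⟨m, hm, hmm⟩ := hz.sep (fun z => ∀ η ∈ z, ¬ Eqc η z) (by
    refine DP.ball (P := fun η v => ¬ Eqc η (v 0)) (DT.var 0) (DP.not ?_)
    exact DP.app2 hEqW (DT.var 0) (DT.var 1)) _ hx
  have hmm' : ∀ ξ : O, ξ.toZFSet ∈ m ↔ Tr.ord ξ ∈ X ∧ ∀ η < ξ, ¬ Eqc η.toZFSet ξ.toZFSet := by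
    intro ξ
    rw [hmm, hxm']
    refine and_congr_right fun _ => ?_
    constructor
    · intro h η hη
      exact h _ (Ordinal.toZFSet_mem_toZFSet_iff.2 hη)
    · intro h η hη
      obtain ⟨η', hη', rfl⟩ := Ordinal.mem_toZFSet_iff.1 hη
      exact h η' hη'
  -- the set U
  have hUdp : DP W W (fun v => ∃ a ∈ m, ∃ c ∈ ρ.toZFSet, v 0 = ZFSet.pair (zn 2)
      (ZFSet.pair (ZFSet.pair (zn 1) a) (ZFSet.pair (zn 1) c)) ∧ Eqc a c) := by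
    refine DP.bex (P := fun a v => ∃ c ∈ ρ.toZFSet, v 0 = ZFSet.pair (zn 2)
      (ZFSet.pair (ZFSet.pair (zn 1) a) (ZFSet.pair (zn 1) c)) ∧ Eqc a c) (DT.par hm) ?_
    refine DP.bex (P := fun c v => v 1 = ZFSet.pair (zn 2)
      (ZFSet.pair (ZFSet.pair (zn 1) (v 0)) (ZFSet.pair (zn 1) c)) ∧ Eqc (v 0) c) (DT.par hρW)
      (DP.and ?_ ?_)
    · exact DP.eq (DT.var 2) (DT.pair (DT.nat 2) (DT.pair (DT.pair (DT.nat 1) (DT.var 1))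
        (DT.pair (DT.nat 1) (DT.var 0))))
    · exact DP.app2 hEqW (DT.var 1) (DT.var 0)
  have hU := hC2 (fun z => ∃ a ∈ m, ∃ c ∈ ρ.toZFSet, z = ZFSet.pair (zn 2)
      (ZFSet.pair (ZFSet.pair (zn 1) a) (ZFSet.pair (zn 1) c)) ∧ Eqc a c) hUdp ρ hρ
  set U : Set T := {t | t ∈ D (Iio ρ) ∧ ∃ a ∈ m, ∃ c ∈ ρ.toZFSet, enc t = ZFSet.pair (zn 2)
      (ZFSet.pair (ZFSet.pair (zn 1) a) (ZFSet.pair (zn 1) c)) ∧ Eqc a c} with hUdef
  have hUiff : ∀ t : T, t ∈ U ↔ ∃ ξ ξ' : O, t = .pr (.ord ξ) (.ord ξ') ∧ ξ' < ρ ∧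
      ξ.toZFSet ∈ m ∧ Eqc ξ.toZFSet ξ'.toZFSet := by
    intro t
    constructor
    · rintro ⟨-, a, ha, c, hc, he, heq⟩
      obtain ⟨ξ, hξ, rfl⟩ := hxo a ((hmm a).1 ha).1
      obtain ⟨ξ', hξ', rfl⟩ := Ordinal.mem_toZFSet_iff.1 hc
      exact ⟨ξ, ξ', hinj _ _ he, hξ', ha, heq⟩
    · rintro ⟨ξ, ξ', rfl, hξ', hm', heq⟩
      have hξX := ((hmm' ξ).1 hm').1
      exact ⟨pr_mem.2 ⟨hXρ hξX, ord_mem.2 hξ'⟩, _, hm', _,
        Ordinal.toZFSet_mem_toZFSet_iff.2 hξ', rfl, heq⟩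
  have hUpr : ∀ ξ ξ' : O, Tr.pr (.ord ξ) (.ord ξ') ∈ U ↔ ξ' < ρ ∧
      ξ.toZFSet ∈ m ∧ Eqc ξ.toZFSet ξ'.toZFSet := by
    intro ξ ξ'
    rw [hUiff]
    constructor
    · rintro ⟨η, η', h, h2⟩
      injection h with h3 h4
      injection h3 with h5
      injection h4 with h6
      subst h5 h6
      exact h2
    · intro h
      exact ⟨ξ, ξ', rfl, h⟩
  have hEset : ∀ ξ : O, (∃ y, Tr.pr (.ord ξ) (.ord y) ∈ U) ↔ ξ.toZFSet ∈ m := by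
    intro ξ
    constructor
    · rintro ⟨y, hy⟩
      exact ((hUpr ξ y).1 hy).2.1
    · intro h
      exact ⟨ξ, (hUpr ξ ξ).2 ⟨ord_mem.1 (hXρ ((hmm' ξ).1 h).1), h, fun b' _ => Iff.rfl⟩⟩
  refine ⟨U, hU, ?_, ?_, ?_, ?_, ?_⟩
  · intro p hp
    obtain ⟨ξ, ξ', h, -⟩ := (hUiff p).1 hp
    exact ⟨ξ, ξ', h⟩
  · intro ξ
    by_cases hξ : ξ.toZFSet ∈ m
    · have hξκ : ξ < κ := (ord_mem.1 (hXρ ((hmm' ξ).1 hξ).1)).trans hρ
      have h1 : DP W {x | ODF W ∅ x} (fun v => ∃ c ∈ ρ.toZFSet, v 0 = ZFSet.pair (zn 1) c ∧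
          Eqc ξ.toZFSet c) := by
        refine DP.bex (P := fun c v => v 0 = ZFSet.pair (zn 1) c ∧ Eqc ξ.toZFSet c)
          (DT.par (hordOD ρ hρ)) (DP.and ?_ ?_)
        · exact DP.eq (DT.var 1) (DT.pair (DT.nat 1) (DT.var 0))
        · exact DP.app2 hEqO (DT.par (hordOD ξ hξκ)) (DT.var 0)
      have h2 := hC3 (fun z => ∃ c ∈ ρ.toZFSet, z = ZFSet.pair (zn 1) c ∧ Eqc ξ.toZFSet c) h1 ρ hρ
      convert h2 using 1
      ext t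
      constructor
      · rintro ⟨y, rfl, hy⟩
        obtain ⟨h3, -, h4⟩ := (hUpr ξ y).1 hy
        exact ⟨ord_mem.2 h3, _, Ordinal.toZFSet_mem_toZFSet_iff.2 h3, rfl, h4⟩
      · rintro ⟨-, c, hc, he, h4⟩
        obtain ⟨y, hy, rfl⟩ := Ordinal.mem_toZFSet_iff.1 hc
        exact ⟨y, hinj _ _ he, (hUpr ξ y).2 ⟨hy, hξ, h4⟩⟩
    · have h2 := hC3 (fun _ => False) DP.const ρ hρ
      convert h2 using 1
      ext t
      constructor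
      · rintro ⟨y, -, hy⟩
        exact absurd ((hUpr ξ y).1 hy).2.1 hξ
      · rintro ⟨-, h⟩
        exact h.elim
  · intro ξ ξ' h
    obtain ⟨-, h2, h3⟩ := (hUpr ξ ξ').1 h
    have h4 : ξ.toZFSet ∈ x := ((hmm _).1 h2).1
    exact (hxm' ξ').1 ((hEqx _ _ h3).1 h4)
  · intro y hy
    have hyρ : y < ρ := ord_mem.1 (hXρ hy)
    obtain ⟨ξ, hξ, hmin⟩ := WellFounded.has_min (wellFounded_lt (α := O))
      {η | Eqc η.toZFSet y.toZFSet} ⟨y, fun b' _ => Iff.rfl⟩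
    have hξ' : Eqc ξ.toZFSet y.toZFSet := hξ
    have h1 : ξ.toZFSet ∈ x := (hEqx _ _ hξ').2 ((hxm' y).2 hy)
    refine ⟨ξ, (hUpr ξ y).2 ⟨hyρ, (hmm' ξ).2 ⟨(hxm' ξ).1 h1, fun η hη h => ?_⟩, hξ'⟩⟩
    exact hmin η (fun b' hb' => (h b' hb').trans (hξ' b' hb')) hη
  · -- the function h
    have hsep : ∀ z : Z, z ∈ W → ∃ s ∈ W, ∀ b', b' ∈ s ↔ b' ∈ B ∧ E z b' := by
      intro z hzW
      refine hz.sep (fun b' => E z b') ?_ B hB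
      exact DP.app2 (R := fun z b' => E z b') (hEdp W hOW inferInstance) (DT.par hzW) (DT.var 0)
    have hRdp : DP W W (fun v => ∃ s ∈ W, (∀ b' ∈ W, (b' ∈ s ↔ b' ∈ B ∧ E (v 0) b')) ∧
        v 1 = ZFSet.pair s (v 0)) := by
      refine DP.ex (P := fun s v => (∀ b' ∈ W, (b' ∈ s ↔ b' ∈ B ∧ E (v 0) b')) ∧
        v 1 = ZFSet.pair s (v 0)) (DP.and ?_ ?_)
      · refine DP.all (P := fun b' v => (b' ∈ v 0 ↔ b' ∈ B ∧ E (v 1) b')) (DP.iff ?_ (DP.and ?_ ?_))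
        · exact DP.mem (DT.var 0) (DT.var 1)
        · exact DP.mem (DT.var 0) (DT.par hB)
        · exact DP.app2 (hEdp W hOW inferInstance) (DT.var 2) (DT.var 0)
      · exact DP.eq (DT.var 2) (DT.pair (DT.var 0) (DT.var 1))
    obtain ⟨h, hh, hhm⟩ := hz.repl (fun z p => ∃ s ∈ W, (∀ b' ∈ W, (b' ∈ s ↔ b' ∈ B ∧ E z b')) ∧
        p = ZFSet.pair s z) hRdp m hm (by
      intro z hzm
      have hzW := hz.trans _ hm z hzm
      obtain ⟨s, hs, hsm⟩ := hsep z hzW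
      refine ⟨ZFSet.pair s z, ZM.pair hs hzW, ⟨s, hs, fun b' _ => hsm b', rfl⟩, ?_⟩
      rintro p' - ⟨s', hs', hsm', rfl⟩
      have : s' = s := by
        rw [ext_tr hs' hs]
        intro b' hb'
        rw [hsm' b' hb', hsm b']
      rw [this])
    refine ⟨h, hh, ?_, ?_, ?_⟩
    · intro p hp
      obtain ⟨-, z, hzm, s, hs, hsm, rfl⟩ := (hhm p).1 hp
      obtain ⟨ξ, -, rfl⟩ := hxo z ((hmm z).1 hzm).1
      refine ⟨s, (hPm s).2 ⟨hs, fun b' hb' => ((hsm b' (hz.trans _ hs _ hb')).1 hb').1⟩, ξ,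
        (hEset ξ).2 hzm, rfl⟩
    · intro a c c' hc hc'
      obtain ⟨-, z, hzm, s, hs, hsm, he⟩ := (hhm _).1 hc
      obtain ⟨-, z', hzm', s', hs', hsm', he'⟩ := (hhm _).1 hc'
      rw [ZFSet.pair_inj] at he he'
      obtain ⟨rfl, rfl⟩ := he
      obtain ⟨h1, rfl⟩ := he'
      subst h1
      have heq : Eqc c c' := by
        intro b' hb'
        have hb'W := hz.trans _ hB _ hb'
        have h1 := hsm b' hb'W
        have h2 := hsm' b' hb'W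
        constructor
        · intro h3
          exact (h2.1 (h1.2 ⟨hb', h3⟩)).2
        · intro h3
          exact (h1.1 (h2.2 ⟨hb', h3⟩)).2
      obtain ⟨ξ, -, rfl⟩ := hxo c ((hmm c).1 hzm).1
      obtain ⟨ξ', -, rfl⟩ := hxo c' ((hmm c').1 hzm').1
      rcases lt_trichotomy ξ ξ' with hlt | rfl | hlt
      · exact absurd heq (((hmm' ξ').1 hzm').2 ξ hlt)
      · rfl
      · exact absurd (fun b' hb' => (heq b' hb').symm) (((hmm' ξ).1 hzm).2 ξ' hlt)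
    · intro ξ hξ
      have hξm := (hEset ξ).1 hξ
      have hξW := hz.trans _ hm _ hξm
      obtain ⟨s, hs, hsm⟩ := hsep _ hξW
      exact ⟨s, (hhm _).2 ⟨ZM.pair hs hξW, _, hξm, s, hs, fun b' _ => hsm b', rfl⟩⟩

end Pool.Agent.Helper17.OD.PkFB2
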