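import Pool.Agent.Helper17.OD.GoalsZV

namespace Pool.Agent.Helper17.OD.PkSBC

open Set

/-- `X` with a new root whose predecessors are the points in `Y`. -/
def rt (X Y : Set T) : Set T :=
  {p | (p = .pr (tg 1 p.fst.snd) (tg 1 p.snd.snd) ∧ Tr.pr p.fst.snd p.snd.snd ∈ X) ∨
    (p = .pr (tg 1 p.fst.snd) (.nat 0) ∧ p.fst.snd ∈ Y)}

theorem rt1 {X Y : Set T} {z x : T} : Tr.pr z (tg 1 x) ∈ rt X Y ↔ ∃ y, z = tg 1 y ∧ Tr.pr y x ∈ X := by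
  constructor
  · rintro (⟨h1, h2⟩ | ⟨h1, h2⟩)
    · injection h1 with h3 h4
      exact ⟨z.snd, h3, h2⟩
    · injection h1 with h3 h4
      exact absurd h4 (by simp [tg])
  · rintro ⟨y, rfl, h⟩
    exact Or.inl ⟨rfl, h⟩

theorem rt0 {X Y : Set T} {z : T} : Tr.pr z (.nat 0) ∈ rt X Y ↔ ∃ y ∈ Y, z = tg 1 y := by
  constructor
  · rintro (⟨h1, h2⟩ | ⟨h1, h2⟩)
    · injection h1 with h3 h4
      exact absurd h4 (by simp [tg])
    · injection h1 with h3 h4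
      exact ⟨z.snd, h2, h3⟩
  · rintro ⟨y, h, rfl⟩
    exact Or.inr ⟨rfl, h⟩

theorem rt_fst {X Y : Set T} {z w : T} (h : Tr.pr z w ∈ rt X Y) : ∃ y, z = tg 1 y := by
  rcases h with ⟨h1, h2⟩ | ⟨h1, h2⟩
  · injection h1 with h3 h4
    exact ⟨_, h3⟩
  · injection h1 with h3 h4
    exact ⟨_, h3⟩

theorem rt_mem {k : O} {S S' : Set (Set T)} (h : SOM k S S') {X Y : Set T} (hX : X ∈ S')
    (hY : Y ∈ S') : rt X Y ∈ S' := by
  obtain ⟨d, hd, hXd⟩ := h.bdd X (h.sub hX)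
  obtain ⟨d', hd', hYd⟩ := h.bdd Y (h.sub hY)
  refine SOM.of_SD (S := S) (k := k) (max_lt hd hd') ?_ ?_
  · rintro p (⟨h1, h2⟩ | ⟨h1, h2⟩)
    · rw [h1]
      have h3 := pr_mem.1 (hXd h2)
      exact pr_mem.2 ⟨pr_mem.2 ⟨nat_mem _ _, D_mono (Iio_subset_Iio (le_max_left _ _)) h3.1⟩,
        pr_mem.2 ⟨nat_mem _ _, D_mono (Iio_subset_Iio (le_max_left _ _)) h3.2⟩⟩
    · rw [h1]
      exact pr_mem.2 ⟨pr_mem.2 ⟨nat_mem _ _, D_mono (Iio_subset_Iio (le_max_right _ _)) (hYd h2)⟩,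
        nat_mem _ _⟩
  · change SD k S S' (fun p _ => (p = .pr (.pr (.nat 1) p.fst.snd) (.pr (.nat 1) p.snd.snd) ∧
      Tr.pr p.fst.snd p.snd.snd ∈ X) ∨
      (p = .pr (.pr (.nat 1) p.fst.snd) (.nat 0) ∧ p.fst.snd ∈ Y))
    apply_rules (maxDepth := 1000) [SD.mem, SD.eq, SD.and, SD.or, ST.id, ST.fst, ST.snd, ST.pr,
      ST.nat, SV.par]

theorem rt_cd {k : O} {S : Set (Set T)} (h : SOM k S S) {X Y : Set T} (hX : IsCd S X)
    (hY : Y ∈ S) : IsCd S (rt X Y) := by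
  refine ⟨rt_mem h hX.1 hY, fun W hW hne => ?_⟩
  have hW1 : {x | Tr.pr (.nat 1) x ∈ W} ∈ S := by
    obtain ⟨d, hd, hWd⟩ := h.bdd W hW
    refine SOM.of_SD (S := S) (k := k) hd (fun x hx => (pr_mem.1 (hWd hx)).2) ?_
    change SD k S S (fun x _ => Tr.pr (.nat 1) x ∈ W)
    apply_rules (maxDepth := 1000) [SD.mem, ST.id, ST.pr, ST.nat, SV.par]
  by_cases h1 : ({x | Tr.pr (.nat 1) x ∈ W} : Set T).Nonempty
  · obtain ⟨x, hx, hmin⟩ := hX.2 _ hW1 h1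
    refine ⟨tg 1 x, hx, fun z hz hc => ?_⟩
    obtain ⟨y, rfl, hy⟩ := rt1.1 hc
    exact hmin y hz hy
  · obtain ⟨w, hw⟩ := hne
    refine ⟨w, hw, fun z hz hc => ?_⟩
    obtain ⟨y, rfl⟩ := rt_fst hc
    exact h1 ⟨y, hz⟩

theorem cvl1 (hCVL : G_CVL) {X Y : Set T} (z : Z) (a : T) :
    Cvl (rel (rt X Y)) z (tg 1 a) ↔ Cvl (rel X) z a := by
  obtain ⟨-, -, hbis, -, -⟩ := hCVL
  constructor
  · refine hbis _ _ (fun a b => a = tg 1 b) ?_ z (tg 1 a) a rfl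
    rintro _ b rfl
    constructor
    · intro a' ha'
      obtain ⟨y, rfl, hy⟩ := rt1.1 ha'
      exact ⟨y, hy, rfl⟩
    · intro b' hb'
      exact ⟨tg 1 b', rt1.2 ⟨b', rfl, hb'⟩, rfl⟩
  · refine hbis _ _ (fun a b => b = tg 1 a) ?_ z a (tg 1 a) rfl
    rintro a _ rfl
    constructor
    · intro a' ha'
      exact ⟨tg 1 a', rt1.2 ⟨a', rfl, ha'⟩, rfl⟩
    · intro b' hb'
      obtain ⟨y, rfl, hy⟩ := rt1.1 hb'
      exact ⟨y, hy, rfl⟩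

theorem cvl0 (hCVL : G_CVL) {X Y : Set T} (z : Z) (h : Cvl (rel (rt X Y)) z (.nat 0)) (y : Z) :
    y ∈ z ↔ ∃ b ∈ Y, Cvl (rel X) y b := by
  rw [hCVL.2.2.2.1 _ _ _ h y]
  constructor
  · rintro ⟨a, ha, hya⟩
    obtain ⟨b, hb, rfl⟩ := rt0.1 ha
    exact ⟨b, hb, (cvl1 hCVL y b).1 hya⟩
  · rintro ⟨b, hb, hyb⟩
    exact ⟨tg 1 b, rt0.2 ⟨b, hb, rfl⟩, (cvl1 hCVL y b).2 hyb⟩

theorem thm (hCVL : G_CVL) (hCOD : G_COD) : G_SBC := by
  intro k S S' hS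
  have hSS : SOM k S S := SOM.self (h := hS)
  have part1 : ∀ X, IsCd S X → ∀ Y ∈ S, ∃ z ∈ Vof S, ∀ y, y ∈ z ↔ ∃ b ∈ Y, Cvl (rel X) y b := by
    intro X hX Y hY
    have hc := rt_cd hSS hX hY
    obtain ⟨z, hz⟩ := (hCOD k S hSS _ hc).2.1 (.nat 0)
    exact ⟨z, ⟨_, hc, hz⟩, cvl0 hCVL z hz⟩
  refine ⟨part1, ?_, ?_⟩
  · intro X hXS' hX b hb
    have hY : {c | Tr.pr c b ∈ X} ∈ S' := by
      obtain ⟨d, hd, hXd⟩ := hS.bdd X hX.1
      refine SOM.of_SD (S := S) (k := k) hd (fun x hx => (pr_mem.1 (hXd hx)).1) ?_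
      have hbc : ST k (fun _ : T => b) := ST.const hb
      change SD k S S' (fun x _ => Tr.pr x b ∈ X)
      exact SD.mem (ST.pr ST.id hbc) (SV.par hXS')
    have hc := rt_cd hSS hX (hS.sub hY)
    refine ⟨rt X {c | Tr.pr c b ∈ X}, rt_mem hS hXS' hY, hc, fun z => ?_⟩
    obtain ⟨z₀, hz₀⟩ := (hCOD k S hSS _ hc).2.1 (.nat 0)
    obtain ⟨z₁, hz₁⟩ := (hCOD k S hSS _ hX).2.1 b
    have heq : z₀ = z₁ := by
      ext y
      rw [cvl0 hCVL z₀ hz₀ y, hCVL.2.2.2.1 _ _ _ hz₁ y]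
      rfl
    constructor
    · intro h
      rw [hCVL.1 _ _ _ _ h hz₀, heq]
      exact hz₁
    · intro h
      rw [hCVL.1 _ _ _ _ h hz₁, ← heq]
      exact hz₀
  · intro X hX b z hz
    have hY : {c | Tr.pr c b ∈ X} ∈ S := by
      by_cases hb : b ∈ D (Iio k)
      · obtain ⟨d, hd, hXd⟩ := hS.bdd X hX.1
        refine SOM.of_SD (S := S) (k := k) hd (fun x hx => (pr_mem.1 (hXd hx)).1) ?_
        have hbc : ST k (fun _ : T => b) := ST.const hb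
        change SD k S S (fun x _ => Tr.pr x b ∈ X)
        exact SD.mem (ST.pr ST.id hbc) (SV.par hX.1)
      · have : ({c | Tr.pr c b ∈ X} : Set T) = ∅ := by
          apply Set.eq_empty_of_forall_notMem
          intro c hc
          obtain ⟨d, hd, hXd⟩ := hS.bdd X hX.1
          exact hb (D_mono (Iio_subset_Iio hd.le) (pr_mem.1 (hXd hc)).2)
        rw [this]
        exact hSS.emp
    obtain ⟨z', hz', hy⟩ := part1 X hX _ hY
    have : z = z' := by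
      ext y
      rw [hy, hCVL.2.2.2.1 _ _ _ hz y]
      rfl
    rw [this]
    exact hz'

end Pool.Agent.Helper17.OD.PkSBC
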