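import Pool.Agent.Helper17.OD.GoalsZV

namespace Pool.Agent.Helper17.OD.PkTRF

open Set
open Pool.Agent.Helper97.Ku (Fml IsZFC)

theorem thm (hEQM : G_EQM) (hCVL : G_CVL) (hCOD : G_COD) : G_TRF := by
  intro k S S' hS φ
  obtain ⟨hE, hC, hEq⟩ := hEQM k S S' hS
  obtain ⟨huniq, -, -, hmem, -⟩ := hCVL
  have h0 : ∀ d : O, (Tr.nat 0 : T) ∈ D (Iio d) := fun d => nat_mem _ _
  induction φ with
  | mem i j =>
    refine ⟨fun σ => ∃ a ∈ D (Iio k), Tr.pr a (.nat 0) ∈ σ j ∧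
      Eqv S (rel (σ i)) (rel (σ j)) (.nat 0) a, ?_, ?_⟩
    · refine SD.exT (P := fun _ a σ => Tr.pr a (.nat 0) ∈ σ j ∧
        Eqv S (rel (σ i)) (rel (σ j)) (.nat 0) a) (SD.and ?_ ?_)
      · exact SD.mem (ST.pr (ST.fst ST.id) (ST.nat 0)) (SV.var j)
      · exact SD.appS2 (R := fun e X Y => Eqv S (rel X) (rel Y) e.fst e.snd)
          (t := fun p => Tr.pr (.nat 0) p.fst) hE (ST.pr (ST.nat 0) (ST.fst ST.id)) (SV.var i)
          (SV.var j)
    · intro X z hX
      change _ ↔ z i ∈ z j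
      rw [hmem _ _ _ (hX j).2 (z i)]
      constructor
      · rintro ⟨a, ha, h1, h2⟩
        obtain ⟨y, hy1, hy2⟩ := (hEq _ _ (hX i).1 (hX j).1 _ (h0 k) a ha).1 h2
        rw [huniq _ _ _ _ (hX i).2 hy1]
        exact ⟨a, h1, hy2⟩
      · rintro ⟨a, h1, h2⟩
        obtain ⟨d, hd, hXd⟩ := hS.bdd _ (hX j).1.1
        have ha : a ∈ D (Iio k) := D_mono (Iio_subset_Iio hd.le) (pr_mem.1 (hXd h1)).1
        exact ⟨a, ha, h1, (hEq _ _ (hX i).1 (hX j).1 _ (h0 k) a ha).2 ⟨z i, (hX i).2, h2⟩⟩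
  | eq i j =>
    refine ⟨fun σ => Eqv S (rel (σ i)) (rel (σ j)) (.nat 0) (.nat 0), ?_, ?_⟩
    · exact SD.appS2 (R := fun e X Y => Eqv S (rel X) (rel Y) e.fst e.snd)
          (t := fun _ => Tr.pr (.nat 0) (.nat 0)) hE (ST.pr (ST.nat 0) (ST.nat 0)) (SV.var i)
          (SV.var j)
    · intro X z hX
      change Eqv S (rel (X i)) (rel (X j)) (.nat 0) (.nat 0) ↔ z i = z j
      rw [hEq _ _ (hX i).1 (hX j).1 _ (h0 k) _ (h0 k)]
      constructor
      · rintro ⟨y, hy1, hy2⟩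
        rw [huniq _ _ _ _ (hX i).2 hy1, huniq _ _ _ _ (hX j).2 hy2]
      · intro h
        exact ⟨z i, (hX i).2, h ▸ (hX j).2⟩
  | neg a ih =>
    obtain ⟨P, hP, h⟩ := ih
    exact ⟨fun σ => ¬ P σ, hP.not, fun X z hX => not_congr (h X z hX)⟩
  | and a b ih1 ih2 =>
    obtain ⟨P, hP, h⟩ := ih1
    obtain ⟨R, hR, h'⟩ := ih2
    exact ⟨fun σ => P σ ∧ R σ, hP.and hR, fun X z hX => and_congr (h X z hX) (h' X z hX)⟩
  | all i a ih =>
    obtain ⟨P, hP, h⟩ := ih
    refine ⟨fun σ => ∀ Y ∈ S, IsCd S Y → P (Function.update σ i Y), ?_, ?_⟩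
    · refine SD.allS (P := fun _ Y σ => IsCd S Y → P (Function.update σ i Y)) (SD.imp hC ?_)
      have h1 := SD.subS (θ := fun j σ => if j = i then σ 0 else σ (j + 1)) hP (fun j => by
        by_cases hj : j = i
        · simp only [hj, if_true]; exact SV.var 0
        · simp only [hj, if_false]; exact SV.var (j + 1))
      refine h1.congr fun e _ σ _ => iff_of_eq (congrArg P ?_)
      funext j
      by_cases hj : j = i
      · subst hj; simp
      · simp [hj]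
    · intro X z hX
      change _ ↔ ∀ x ∈ Vof S, SatW (Vof S) a (Function.update z i x)
      have key : ∀ Y x, IsCd S Y → Cvl (rel Y) x (.nat 0) →
          (P (Function.update X i Y) ↔ SatW (Vof S) a (Function.update z i x)) := by
        intro Y x hY hx
        refine h _ _ (fun j => ?_)
        by_cases hj : j = i
        · subst hj; simpa using ⟨hY, hx⟩
        · simpa [hj] using hX j
      constructor
      · rintro h1 x ⟨Y, hY, hx⟩
        exact (key Y x hY hx).1 (h1 Y hY.1 hY)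
      · intro h1 Y _ hY
        obtain ⟨x, hx⟩ := (hCOD k S (SOM.self (h := hS)) Y hY).2.1 (.nat 0)
        exact (key Y x hY hx).2 (h1 x ⟨Y, hY, hx⟩)

end Pool.Agent.Helper17.OD.PkTRF
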