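import Pool.Agent.Helper17.OD.GoalsZV

namespace Pool.Agent.Helper17.OD.PkVSS

open Set

theorem thm (hCVL : G_CVL) (hCOD : G_COD) (hEEV : G_EEV) (hSBC : G_SBC) (hEQM : G_EQM)
    (hENC : G_ENC) :
    G_VSS := by
  intro k S hS X
  obtain ⟨-, -, hev, -, hes, hEE⟩ := hEEV
  obtain ⟨hsdE, hEs⟩ := hEE k S S hS
  obtain ⟨huniq, -, hbis, hmem, -⟩ := hCVL
  constructor
  · intro hX
    obtain ⟨d, hd, hXd⟩ := hS.bdd X hX
    refine ⟨⟨d, hd, hXd⟩, ?_⟩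
    have hY : {p : T | p = .pr (.nat 2) p.snd ∧ p.snd ∈ X} ∈ S := by
      refine SOM.of_SD (S := S) (k := k) hd ?_ ?_
      · rintro p ⟨h1, h2⟩
        rw [h1]
        exact pr_mem.2 ⟨nat_mem _ _, hXd h2⟩
      · change SD k S S (fun p _ => p = .pr (.nat 2) p.snd ∧ p.snd ∈ X)
        apply_rules (maxDepth := 1000) [SD.mem, SD.eq, SD.and, ST.id, ST.fst, ST.snd, ST.pr, ST.nat,
          SV.par]
    obtain ⟨z, hz, hy⟩ := (hSBC k S S hS).1 _ (hEs d hd).2 _ hY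
    refine ⟨z, hz, fun y => ?_⟩
    rw [hy]
    constructor
    · rintro ⟨b, ⟨h1, h2⟩, h3⟩
      refine ⟨b.snd, h2, ?_⟩
      rw [h1] at h3
      have h4 := (hes d _ (pr_mem.2 ⟨nat_mem _ _, hXd h2⟩) y).1 h3
      exact huniq _ _ _ _ h4 (hev b.snd)
    · rintro ⟨t, ht, rfl⟩
      exact ⟨.pr (.nat 2) t, ⟨rfl, ht⟩, (hes d _ (pr_mem.2 ⟨nat_mem _ _, hXd ht⟩) _).2 (hev t)⟩
  · rintro ⟨⟨d, hd, hXd⟩, A, ⟨C, hC, hA⟩, hAX⟩
    obtain ⟨hsq, -, heq⟩ := hEQM k S S hS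
    have hCS := hC.1
    have hES := (hEs d hd).1
    have h1 : SD k S S (fun t _ => ∃ a ∈ D (Iio k), Tr.pr a (.nat 0) ∈ C ∧
        Eqv S (rel C) (rel (EEs d)) a (.pr (.nat 2) t)) := by
      refine SD.exT (P := fun t a _ => Tr.pr a (.nat 0) ∈ C ∧
        Eqv S (rel C) (rel (EEs d)) a (.pr (.nat 2) t)) (SD.and ?_ ?_)
      · exact SD.mem (ST.pr (ST.fst ST.id) (ST.nat 0)) (SV.par hCS)
      · exact SD.appS2 (R := fun e X Y => Eqv S (rel X) (rel Y) e.fst e.snd)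
          (t := fun p => Tr.pr p.fst (.pr (.nat 2) p.snd)) hsq (ST.pr (ST.fst ST.id)
            (ST.pr (ST.nat 2) (ST.snd ST.id))) (SV.par hCS) (SV.par hES)
    have h2 := SOM.sep (k := k) h1 hd
    convert h2 using 1
    ext t
    have hbd : ∀ a b : T, Tr.pr a b ∈ C → a ∈ D (Iio k) := by
      intro a b h
      obtain ⟨d, hd, hXd⟩ := hS.bdd C hCS
      exact (pr_mem.1 (D_mono (Iio_subset_Iio hd.le) (hXd h))).1
    have htd : ∀ t ∈ D (Iio d), (Tr.pr (.nat 2) t) ∈ D (Iio d) := fun t ht =>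
      pr_mem.2 ⟨nat_mem _ _, ht⟩
    constructor
    · intro ht
      refine ⟨hXd ht, ?_⟩
      have h3 : enc t ∈ A := (hAX _).2 ⟨t, ht, rfl⟩
      obtain ⟨a, ha, h4⟩ := (hmem _ _ _ hA _).1 h3
      exact ⟨a, hbd _ _ ha, ha, (heq _ _ hC (hEs d hd).2 a (hbd _ _ ha) _
        (D_mono (Iio_subset_Iio hd.le) (htd t (hXd ht)))).2 ⟨enc t, h4,
          (hes d _ (htd t (hXd ht)) _).2 (hev t)⟩⟩
    · rintro ⟨ht, a, hak, ha, h3⟩
      obtain ⟨z, hz1, hz2⟩ := (heq _ _ hC (hEs d hd).2 a hak _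
        (D_mono (Iio_subset_Iio hd.le) (htd t ht))).1 h3
      have h4 : z = enc t := huniq _ _ _ _ ((hes d _ (htd t ht) _).1 hz2) (hev t)
      rw [h4] at hz1
      have h5 : enc t ∈ A := (hmem _ _ _ hA _).2 ⟨a, ha, hz1⟩
      obtain ⟨s, hs, he⟩ := (hAX _).1 h5
      have h6 : t = s := by
        -- injectivity of enc through uniqueness
        exact hENC.1 t s he
      rw [h6]
      exact hs

end Pool.Agent.Helper17.OD.PkVSS
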