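import Pool.Agent.Helper17.OD.GoalsZV

namespace Pool.Agent.Helper17.OD.PkVZF

open Set
open Pool.Agent.Helper97.Ku (Fml IsZFC)

theorem thm (hVTR : G_VTR) (hVPU : G_VPU) (hVPW : G_VPW) (hVSP : G_VSP) (hVRP : G_VRP)
    (hVCH : G_VCH) : G_VZF := by
  intro k S hS hPE
  obtain ⟨htr, -, hht⟩ := hVTR k S hS
  obtain ⟨hpair, hun⟩ := hVPU k S hS
  have hωV : (zω : Z) ∈ Vof S := (hht _).2 hS.omg
  have hupd : ∀ (w : ℕ → Vof S) (i : ℕ) (x : Z) (hx : x ∈ Vof S),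
      (fun j => ((Function.update w i ⟨x, hx⟩ j : Vof S) : Z)) =
        Function.update (fun j => (w j : Z)) i x := by
    intro w i x hx
    funext j
    by_cases hj : j = i
    · subst hj; simp
    · simp [hj]
  refine ⟨htr, ?_, ?_, ?_, ?_, ?_, ?_, ?_, ?_, ?_⟩
  · rintro ⟨a, ha⟩ ⟨b, hb⟩ h
    apply Subtype.ext
    ext z
    constructor
    · intro hz
      exact (h ⟨z, htr a ha z hz⟩).1 hz
    · intro hz
      exact (h ⟨z, htr b hb z hz⟩).2 hz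
  · rintro ⟨a, ha⟩ ⟨⟨x, hx⟩, hxa⟩
    have hne : a ≠ ∅ := by
      rintro rfl
      exact ZFSet.notMem_empty _ hxa
    obtain ⟨y, hy, hya⟩ := ZFSet.regularity a hne
    refine ⟨⟨y, htr a ha y hy⟩, hy, ?_⟩
    rintro ⟨u, hu⟩ huy hua
    have : u ∈ a ∩ y := ZFSet.mem_inter.2 ⟨hua, huy⟩
    rw [hya] at this
    exact ZFSet.notMem_empty _ this
  · rintro ⟨a, ha⟩ ⟨b, hb⟩
    refine ⟨⟨{a, b}, hpair a ha b hb⟩, ?_⟩
    rintro ⟨x, hx⟩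
    change x ∈ ({a, b} : Z) ↔ _
    rw [ZFSet.mem_pair]
    simp [Subtype.ext_iff]
  · rintro ⟨a, ha⟩
    refine ⟨⟨_, hun a ha⟩, ?_⟩
    rintro ⟨x, hx⟩
    change x ∈ ZFSet.sUnion a ↔ _
    rw [ZFSet.mem_sUnion]
    constructor
    · rintro ⟨y, hy, hxy⟩
      exact ⟨⟨y, htr a ha y hy⟩, hy, hxy⟩
    · rintro ⟨y, hy, hxy⟩
      exact ⟨y, hy, hxy⟩
  · rintro ⟨a, ha⟩
    obtain ⟨y, hy, hyy⟩ := hVPW k S hS hPE a ha
    refine ⟨⟨y, hy⟩, ?_⟩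
    rintro ⟨x, hx⟩
    change x ∈ y ↔ _
    rw [hyy]
    constructor
    · rintro ⟨-, h⟩ ⟨z, hz⟩ hzx
      exact h hzx
    · intro h
      refine ⟨hx, fun z hzx => h ⟨z, htr x hx z hzx⟩ hzx⟩
  · refine ⟨⟨zω, hωV⟩, ⟨⟨∅, ?_⟩, ?_, ?_⟩, ?_⟩
    · exact htr _ hωV _ ((mem_zω _).2 ⟨0, zn_zero.symm⟩)
    · exact (mem_zω _).2 ⟨0, zn_zero.symm⟩
    · rintro ⟨x, hx⟩ h
      exact ZFSet.notMem_empty _ h
    · rintro ⟨x, hx⟩ h
      obtain ⟨n, rfl⟩ := (mem_zω x).1 h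
      have hn : zn (n + 1) ∈ zω := (mem_zω _).2 ⟨n + 1, rfl⟩
      refine ⟨⟨zn (n + 1), htr _ hωV _ hn⟩, hn, ?_⟩
      rintro ⟨z, hz⟩
      change z ∈ zn (n + 1) ↔ _
      rw [zn_succ, ZFSet.mem_insert_iff]
      constructor
      · rintro (h | h)
        · exact Or.inr (Subtype.ext h)
        · exact Or.inl h
      · rintro (h | h)
        · exact Or.inr h
        · exact Or.inl (congrArg Subtype.val h)
  · rintro φ w ⟨a, ha⟩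
    obtain ⟨b, hb, hbb⟩ := hVSP k S hS φ (fun i => (w i : Z)) (fun i => (w i).2) a ha
    refine ⟨⟨b, hb⟩, ?_⟩
    rintro ⟨x, hx⟩
    rw [sat_El, hupd]
    exact hbb x
  · rintro φ w ⟨a, ha⟩ hfun
    obtain ⟨b, hb, hbb⟩ := hVRP k S hS hPE φ (fun i => (w i : Z)) (fun i => (w i).2) a ha (by
      intro x hx
      obtain ⟨⟨y, hy⟩, h1, h2⟩ := hfun ⟨x, htr a ha x hx⟩ hx
      simp only [sat_El, hupd] at h1 h2
      refine ⟨y, hy, h1, fun y' hy' h' => ?_⟩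
      have := h2 ⟨y', hy'⟩ (by
        simp only [hupd]
        exact h')
      exact congrArg Subtype.val this)
    refine ⟨⟨b, hb⟩, ?_⟩
    rintro ⟨y, hy⟩
    change y ∈ b ↔ _
    rw [hbb]
    constructor
    · rintro ⟨x, hx, -, h⟩
      refine ⟨⟨x, htr a ha x hx⟩, hx, ?_⟩
      simp only [sat_El, hupd]
      exact h
    · rintro ⟨⟨x, hx⟩, hxa, h⟩
      simp only [sat_El, hupd] at h
      exact ⟨x, hxa, hy, h⟩
  · rintro ⟨a, ha⟩ hne hdis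
    obtain ⟨c, hc, hcc⟩ := hVCH k S hS a ha (by
      intro x hx
      obtain ⟨y, hy⟩ := hne ⟨x, htr a ha x hx⟩ hx
      exact ⟨y, hy⟩) (by
      intro x hx y hy hxy z ⟨h1, h2⟩
      have hxV := htr a ha x hx
      exact hdis ⟨x, hxV⟩ ⟨y, htr a ha y hy⟩ hx hy (fun h => hxy (congrArg Subtype.val h))
        ⟨z, htr x hxV z h1⟩ ⟨h1, h2⟩)
    refine ⟨⟨c, hc⟩, ?_⟩
    rintro ⟨x, hxV⟩ hx
    obtain ⟨z, ⟨hz1, hz2⟩, huniq⟩ := hcc x hx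
    refine ⟨⟨z, htr x hxV z hz1⟩, ⟨hz1, hz2⟩, ?_⟩
    rintro ⟨z', hz'⟩ ⟨h1, h2⟩
    exact Subtype.ext (huniq z' ⟨h1, h2⟩)

end Pool.Agent.Helper17.OD.PkVZF
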