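import Pool.Agent.Helper17.OD.GoalsZV

namespace Pool.Agent.Helper17.OD.PkVCH

open Set

theorem thm (hCVL : G_CVL) (hCOD : G_COD) (hSBC : G_SBC) (hEQM : G_EQM) (hLST : G_LST)
    (hLTO : G_LTO.{2}) : G_VCH := by
  intro k S hS a ha hne hdis
  obtain ⟨X, hX, hXa⟩ := ha
  obtain ⟨hsq, -, heq⟩ := hEQM k S S hS
  obtain ⟨huniq, -, hbis, hmem, -⟩ := hCVL
  obtain ⟨-, hval, -⟩ := hCOD k S hS X hX
  have hXS := hX.1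
  have hbd : ∀ a b : T, Tr.pr a b ∈ X → a ∈ D (Iio k) ∧ b ∈ D (Iio k) := by
    intro a b h
    obtain ⟨d, hd, hXd⟩ := hS.bdd X hXS
    exact pr_mem.1 (D_mono (Iio_subset_Iio hd.le) (hXd h))
  let P : T → T → Prop := fun p q => ∃ p' ∈ D (Iio k), Eqv S (rel X) (rel X) p' p ∧
    Tr.pr q p' ∈ X
  have hPSD : SD k S S (fun e _ => P e.fst e.snd) := by
    refine SD.exT (P := fun e p' _ => Eqv S (rel X) (rel X) p' e.fst ∧ Tr.pr e.snd p' ∈ X)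
      (SD.and ?_ ?_)
    · exact SD.appS2 (R := fun e X Y => Eqv S (rel X) (rel Y) e.fst e.snd)
        (t := fun p => Tr.pr p.fst p.snd.fst) hsq (ST.pr (ST.fst ST.id) (ST.fst (ST.snd ST.id)))
        (SV.par hXS) (SV.par hXS)
    · exact SD.mem (ST.pr (ST.snd (ST.snd ST.id)) (ST.fst ST.id)) (SV.par hXS)
  obtain ⟨g, hg, -, hgSD⟩ := hLST k S S hS P hPSD
  -- values
  have hPval : ∀ p ∈ D (Iio k), ∀ q z x, P p q → Cvl (rel X) z q → Cvl (rel X) x p → z ∈ x := by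
    rintro p hp q z x ⟨p', hp', he, hq⟩ hz hx
    obtain ⟨u, hu1, hu2⟩ := (heq X X hX hX p' hp' p hp).1 he
    have h1 : u = x := huniq _ _ _ _ hu2 hx
    rw [h1] at hu1
    exact (hmem _ _ _ hu1 z).2 ⟨q, hq, hz⟩
  have hPex : ∀ p ∈ D (Iio k), ∀ q, Tr.pr q p ∈ X → P p q := by
    intro p hp q hq
    obtain ⟨u, hu⟩ := hval p
    exact ⟨p, hp, (heq X X hX hX p hp p hp).2 ⟨u, hu, hu⟩, hq⟩
  have hPsame : ∀ p ∈ D (Iio k), ∀ p₁ ∈ D (Iio k), ∀ x, Cvl (rel X) x p → Cvl (rel X) x p₁ →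
      ∀ q, P p q → P p₁ q := by
    rintro p hp p₁ hp₁ x hx hx₁ q ⟨p', hp', he, hq⟩
    obtain ⟨u, hu1, hu2⟩ := (heq X X hX hX p' hp' p hp).1 he
    have h1 : u = x := huniq _ _ _ _ hu2 hx
    rw [h1] at hu1
    exact ⟨p', hp', (heq X X hX hX p' hp' p₁ hp₁).2 ⟨x, hu1, hx₁⟩, hq⟩
  have hgsame : ∀ p ∈ D (Iio k), ∀ p₁ ∈ D (Iio k), ∀ x, Cvl (rel X) x p → Cvl (rel X) x p₁ →
      (∃ y ∈ D (Iio k), P p y) → g p = g p₁ := by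
    intro p hp p₁ hp₁ x hx hx₁ hex
    have hex₁ : ∃ y ∈ D (Iio k), P p₁ y := by
      obtain ⟨y, hy, h⟩ := hex
      exact ⟨y, hy, hPsame p hp p₁ hp₁ x hx hx₁ y h⟩
    obtain ⟨h1, h2, h3⟩ := hg p hp hex
    obtain ⟨h4, h5, h6⟩ := hg p₁ hp₁ hex₁
    have h7 := h3 _ h4 (hPsame p₁ hp₁ p hp x hx₁ hx _ h5)
    have h8 := h6 _ h1 (hPsame p hp p₁ hp₁ x hx hx₁ _ h2)
    rcases (hLTO O).2.2 (g p) (g p₁) with h | h | h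
    · exact absurd h h8
    · exact h
    · exact absurd h h7
  have hYS : {q : T | ∃ p ∈ D (Iio k), Tr.pr p (.nat 0) ∈ X ∧ (∃ q' ∈ D (Iio k), P p q') ∧
      g p = q} ∈ S := by
    obtain ⟨d, hd, hXd⟩ := hS.bdd X hXS
    refine SOM.of_SD (S := S) (k := k) hd ?_ ?_
    · rintro q ⟨p, hp, -, hex, rfl⟩
      obtain ⟨-, ⟨p', -, -, h⟩, -⟩ := hg p hp hex
      exact (pr_mem.1 (hXd h)).1
    · refine SD.exT (P := fun q p _ => Tr.pr p (.nat 0) ∈ X ∧ (∃ q' ∈ D (Iio k), P p q') ∧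
        g p = q) (SD.and ?_ (SD.and ?_ ?_))
      · exact SD.mem (ST.pr (ST.fst ST.id) (ST.nat 0)) (SV.par hXS)
      · refine SD.exT (P := fun e q' _ => P e.fst q') ?_
        exact SD.app2 hPSD (ST.fst (ST.snd ST.id)) (ST.fst ST.id)
      · exact SD.app2 (R := fun p q => g p = q) hgSD (ST.fst ST.id) (ST.snd ST.id)
  obtain ⟨c, hc, hcy⟩ := (hSBC k S S hS).1 X hX _ hYS
  refine ⟨c, hc, fun x hx => ?_⟩
  obtain ⟨p, hp, hpx⟩ := (hmem _ _ _ hXa x).1 hx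
  have hpk := (hbd _ _ hp).1
  obtain ⟨y, hy⟩ := hne x hx
  obtain ⟨q', hq', -⟩ := (hmem _ _ _ hpx y).1 hy
  have hex : ∃ q ∈ D (Iio k), P p q := ⟨q', (hbd _ _ hq').1, hPex p hpk q' hq'⟩
  obtain ⟨hg1, hg2, -⟩ := hg p hpk hex
  obtain ⟨z, hz⟩ := hval (g p)
  refine ⟨z, ⟨hPval p hpk _ z x hg2 hz hpx, (hcy z).2 ⟨g p, ⟨p, hpk, hp, hex, rfl⟩, hz⟩⟩, ?_⟩
  rintro z' ⟨hz'x, hz'c⟩
  obtain ⟨q, ⟨p₁, hp₁k, hp₁, hex₁, rfl⟩, hz'⟩ := (hcy z').1 hz'c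
  obtain ⟨x₁, hx₁⟩ := hval p₁
  have hx₁a : x₁ ∈ a := (hmem _ _ _ hXa x₁).2 ⟨p₁, hp₁, hx₁⟩
  obtain ⟨-, hg4, -⟩ := hg p₁ hp₁k hex₁
  have hz'x₁ : z' ∈ x₁ := hPval p₁ hp₁k _ z' x₁ hg4 hz' hx₁
  have hxx : x = x₁ := by
    by_contra hne
    exact hdis x hx x₁ hx₁a hne z' ⟨hz'x, hz'x₁⟩
  subst hxx
  have := hgsame p hpk p₁ hp₁k x hpx hx₁ hex
  rw [← this] at hz'
  exact huniq _ _ _ _ hz' hz

end Pool.Agent.Helper17.OD.PkVCH
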